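import Mathlib.Algebra.Order.Ring.Nat
import Mathlib.Algebra.Group.Nat.Even
import Mathlib.Data.Finset.Filter
import Mathlib.SetTheory.Cardinal.Finite
import Pool.Agent.U20.DN.Defs

/-!
# Samples, parities and circuits which find hypotheses
-/

set_option autoImplicit false

namespace Pool.Agent.U20.DL

open Pool.Agent.U20.DN

/-- A labelled example: a point of the cube and a label. -/
abbrev Ex (n : ℕ) : Type := (Fin n → Bool) × Bool

/-- The parity of the bits of `x` in the places `A`. -/
def par {n : ℕ} (A : Finset (Fin n)) (x : Fin n → Bool) : Bool :=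
  decide (Odd (A.filter (fun i => x i = true)).card)

/-- The sample which consists of the points `X` labelled by `f`. -/
def labelled {n m : ℕ} (f : (Fin n → Bool) → Bool) (X : Fin m → Fin n → Bool) (i : Fin m) :
    Ex n := (X i, f (X i))

/-- The number of errors of the hypothesis `h` on the sample `S`. -/
noncomputable def errors {n m : ℕ} (h : (Fin n → Bool) → Bool) (S : Fin m → Ex n) : ℕ :=
  Nat.card {i // h (S i).1 ≠ (S i).2}

/-- The fraction of errors of the hypothesis `h` on the sample `S` is at most `1 / 2 - 1 / g`. -/
def Adv {n m : ℕ} (g : ℕ) (h : (Fin n → Bool) → Bool) (S : Fin m → Ex n) : Prop :=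
  2 * g * errors h S + 2 * m ≤ g * m

/-- The gates in `O` are the outputs of the circuit `G`, the output `i` stands for the hypothesis
`hyp i`. The circuit is sound: if an output accepts a sample, its hypothesis has advantage `1 / g`
on the sample. -/
def Sound {n m : ℕ} {I : Type} (g : ℕ) (G : I → Gate (Fin m) (Ex n) I) (O : Set I)
    (hyp : I → (Fin n → Bool) → Bool) : Prop :=
  ∀ i ∈ O, ∀ S : Fin m → Ex n, Acc G S i → Adv g (hyp i) S

/-- Some output of the circuit accepts the sample. -/
def Finds {n m : ℕ} {I : Type} (G : I → Gate (Fin m) (Ex n) I) (O : Set I)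
    (S : Fin m → Ex n) : Prop :=
  ∃ i ∈ O, Acc G S i

end Pool.Agent.U20.DL
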