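import Mathlib
import Pool.Agent.U20.DL.Defs

/-!
# Parities are orthogonal
-/

set_option autoImplicit false

open Finset

namespace Pool.Agent.U20.DL

variable {n m t : ℕ}

/-- The sign of a bit. -/
noncomputable def sg (b : Bool) : ℝ := if b = true then -1 else 1

theorem sg_sq (b : Bool) : sg b * sg b = 1 := by cases b <;> simp [sg]

theorem sg_par (A : Finset (Fin n)) (x : Fin n → Bool) : sg (par A x) = ∏ i ∈ A, sg (x i) := by
  unfold sg par
  rw [prod_ite, prod_const, prod_const_one, mul_one]
  rcases Nat.even_or_odd (A.filter (fun i => x i = true)).card with h | h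
  · rw [Even.neg_one_pow h, if_neg]
    simpa using h
  · rw [Odd.neg_one_pow h, if_pos]
    simpa using h

/-- Sums over functions of products. -/
theorem sum_prod_fun {ι α : Type} [Fintype ι] [DecidableEq ι] [Fintype α] (f : ι → α → ℝ) :
    ∑ x : ι → α, ∏ i, f i (x i) = ∏ i, ∑ a, f i a := by
  rw [prod_univ_sum, Fintype.piFinset_univ]

theorem orth (A B : Finset (Fin n)) : ∑ x : Fin n → Bool, sg (par A x) * sg (par B x) =
    if A = B then (2 : ℝ) ^ n else 0 := by
  classical
  by_cases h : A = B
  · rw [if_pos h, h]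
    simp [sg_sq]
  · rw [if_neg h]
    obtain ⟨i, hi⟩ : ∃ i, (i ∈ A ∧ i ∉ B) ∨ (i ∈ B ∧ i ∉ A) := by
      by_contra hcon
      push Not at hcon
      refine h (Finset.ext fun i => ⟨fun hi => ?_, fun hi => ?_⟩)
      · exact (hcon i).1 hi
      · exact (hcon i).2 hi
    have h1 : ∀ x : Fin n → Bool, sg (par A x) * sg (par B x) =
        ∏ j, ((if j ∈ A then sg (x j) else 1) * (if j ∈ B then sg (x j) else 1)) := by
      intro x
      rw [prod_mul_distrib, prod_ite_mem, prod_ite_mem, univ_inter, univ_inter, sg_par, sg_par]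
    simp only [h1]
    rw [sum_prod_fun (fun j (b : Bool) => (if j ∈ A then sg b else 1) * (if j ∈ B then sg b else 1))]
    refine prod_eq_zero (mem_univ i) ?_
    rcases hi with ⟨h2, h3⟩ | ⟨h2, h3⟩
    · simp [h2, h3, sg]
    · simp [h2, h3, sg]

/-- The correlation (times `2 ^ n`) of `h` and the parity of the bits in `A`. -/
noncomputable def cor (h : (Fin n → Bool) → Bool) (A : Finset (Fin n)) : ℝ :=
  ∑ x : Fin n → Bool, sg (h x) * sg (par A x)

theorem card_agree (h : (Fin n → Bool) → Bool) (A : Finset (Fin n)) :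
    ((univ.filter (fun x => h x = par A x)).card : ℝ) = (2 ^ n + cor h A) / 2 := by
  have h1 : ∀ x : Fin n → Bool, sg (h x) * sg (par A x) =
      2 * (if h x = par A x then 1 else 0) - 1 := by
    intro x
    cases h x <;> cases par A x <;> norm_num [sg]
  unfold cor
  simp only [h1]
  rw [sum_sub_distrib, ← mul_sum, sum_boole]
  simp

theorem cor_le (h : (Fin n → Bool) → Bool) (A : Finset (Fin n)) : cor h A ≤ 2 ^ n := by
  have h1 := card_agree h A
  have h2 : ((univ.filter (fun x => h x = par A x)).card : ℝ) ≤ 2 ^ n := by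
    have h3 := card_filter_le (univ : Finset (Fin n → Bool)) (fun x => h x = par A x)
    rw [card_univ, Fintype.card_fun, Fintype.card_bool, Fintype.card_fin] at h3
    exact_mod_cast h3
  linarith

/-- Bessel's inequality with weights. -/
theorem bessel (h : (Fin n → Bool) → Bool) (S : Fin t → Finset (Fin n)) (T : Finset (Fin t))
    (hT : Set.InjOn S T) (w : Fin t → ℝ) :
    (∑ j ∈ T, w j * cor h (S j)) ^ 2 ≤ (2 ^ n) ^ 2 * ∑ j ∈ T, w j ^ 2 := by
  classical
  have h1 : ∑ j ∈ T, w j * cor h (S j) =
      ∑ x : Fin n → Bool, sg (h x) * ∑ j ∈ T, w j * sg (par (S j) x) := by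
    unfold cor
    simp only [mul_sum]
    rw [sum_comm]
    refine sum_congr rfl fun x _ => sum_congr rfl fun j _ => ?_
    ring
  have h2 : ∑ x : Fin n → Bool, (∑ j ∈ T, w j * sg (par (S j) x)) ^ 2 =
      2 ^ n * ∑ j ∈ T, w j ^ 2 := by
    calc ∑ x : Fin n → Bool, (∑ j ∈ T, w j * sg (par (S j) x)) ^ 2 =
        ∑ x : Fin n → Bool, ∑ j ∈ T, ∑ l ∈ T, w j * w l *
          (sg (par (S j) x) * sg (par (S l) x)) := by
          refine sum_congr rfl fun x _ => ?_
          rw [sq, sum_mul_sum]
          refine sum_congr rfl fun j _ => sum_congr rfl fun l _ => ?_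
          ring
      _ = ∑ j ∈ T, ∑ l ∈ T, w j * w l * (if S j = S l then (2 : ℝ) ^ n else 0) := by
          rw [sum_comm]
          refine sum_congr rfl fun j _ => ?_
          rw [sum_comm]
          refine sum_congr rfl fun l _ => ?_
          rw [← orth, mul_sum]
      _ = ∑ j ∈ T, w j ^ 2 * 2 ^ n := by
          refine sum_congr rfl fun j hj => ?_
          rw [sum_eq_single_of_mem j hj]
          · rw [if_pos rfl, sq]
          · intro l hl hne
            rw [if_neg, mul_zero]
            intro he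
            exact hne (hT hl hj he.symm)
      _ = _ := by rw [← sum_mul, mul_comm]
  rw [h1]
  refine (sum_mul_sq_le_sq_mul_sq _ _ _).trans ?_
  rw [h2]
  have h3 : ∑ x : Fin n → Bool, sg (h x) ^ 2 = 2 ^ n := by
    simp [sq, sg_sq]
  rw [h3, sq (2 ^ n : ℝ), mul_assoc]

end Pool.Agent.U20.DL
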