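import Mathlib
import Pool.Agent.U20.DL.Fourier

/-!
# Mixtures of samples of different parities have no good hypothesis
-/

set_option autoImplicit false

open Finset

namespace Pool.Agent.U20.DL

variable {n m t : ℕ}

/-- A hypothesis has small total correlation with a mixture of many different parities. -/
theorem cor_sum_le (h : (Fin n → Bool) → Bool) (S : Fin t → Finset (Fin n)) {M w : ℕ}
    (p : Fin m → Fin t) (hM : ∀ j, (univ.filter (fun v => p v = j)).card ≤ M)
    (hS : t ≤ (univ.image S).card + w) :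
    ∑ v, cor h (S (p v)) ≤ 2 ^ n * (√(M * m) + w * M) := by
  classical
  -- representatives
  obtain ⟨T, hTc, hTi⟩ : ∃ T : Finset (Fin t), T.card = (univ.image S).card ∧
      Set.InjOn S T := by
    obtain ⟨u, hu, hi⟩ := Set.exists_image_eq_and_injOn (Set.univ : Set (Fin t)) S
    have hi' : Set.InjOn S (univ.filter (fun j => j ∈ u) : Finset (Fin t)) := by
      intro j hj l hl h1
      exact hi (mem_filter.1 (mem_coe.1 hj)).2 (mem_filter.1 (mem_coe.1 hl)).2 h1
    refine ⟨univ.filter (fun j => j ∈ u), ?_, hi'⟩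
    rw [← card_image_of_injOn hi']
    congr 1
    ext A
    have h1 : A ∈ S '' u ↔ A ∈ S '' Set.univ := by rw [hu]
    rw [mem_image, mem_image]
    constructor
    · rintro ⟨j, -, hj⟩
      exact ⟨j, mem_univ _, hj⟩
    · rintro ⟨j, -, hj⟩
      obtain ⟨l, hl, hl'⟩ := h1.2 ⟨j, Set.mem_univ _, hj⟩
      exact ⟨l, mem_filter.2 ⟨mem_univ _, hl⟩, hl'⟩
  obtain ⟨c, hc⟩ : ∃ c : Fin t → ℝ, c = fun j => ((univ.filter (fun v => p v = j)).card : ℝ) :=
    ⟨_, rfl⟩
  have hc0 : ∀ j, 0 ≤ c j := fun j => by rw [hc]; exact Nat.cast_nonneg _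
  have hcM : ∀ j, c j ≤ M := fun j => by
    rw [hc]
    exact Nat.cast_le.2 (hM j)
  have hcs : ∑ j, c j = m := by
    rw [hc, ← Nat.cast_sum, ← card_eq_sum_card_fiberwise (fun v _ => mem_univ (p v))]
    simp
  have h0 : ∑ v, cor h (S (p v)) = ∑ j, c j * cor h (S j) := by
    rw [← sum_fiberwise' univ p (fun j => cor h (S j))]
    refine sum_congr rfl fun j _ => ?_
    rw [sum_const, nsmul_eq_mul, hc]
  have h2 : (0 : ℝ) ≤ 2 ^ n := by positivity
  have hA : ∑ j ∈ T, c j * cor h (S j) ≤ 2 ^ n * √(M * m) := by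
    have h3 := bessel h S T hTi c
    have h4 : ∑ j ∈ T, c j ^ 2 ≤ M * m := by
      calc ∑ j ∈ T, c j ^ 2 ≤ ∑ j, c j ^ 2 :=
            sum_le_sum_of_subset_of_nonneg (subset_univ _) fun j _ _ => by positivity
        _ ≤ ∑ j, M * c j := by
            refine sum_le_sum fun j _ => ?_
            rw [sq]
            exact mul_le_mul_of_nonneg_right (hcM j) (hc0 j)
        _ = _ := by rw [← mul_sum, hcs]
    have h5 : (∑ j ∈ T, c j * cor h (S j)) ^ 2 ≤ (2 ^ n * √(M * m)) ^ 2 := by
      rw [mul_pow, Real.sq_sqrt (by positivity)]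
      exact h3.trans (mul_le_mul_of_nonneg_left h4 (by positivity))
    exact abs_le_of_sq_le_sq' h5 (by positivity) |>.2
  have hB : ∑ j ∈ univ \ T, c j * cor h (S j) ≤ 2 ^ n * (w * M) := by
    have hcard : ((univ \ T).card : ℝ) ≤ w := by
      have h3 := card_sdiff_add_card_eq_card (subset_univ T)
      rw [card_univ, Fintype.card_fin, hTc] at h3
      have : (univ \ T).card ≤ w := by omega
      exact_mod_cast this
    calc ∑ j ∈ univ \ T, c j * cor h (S j) ≤ ∑ _j ∈ univ \ T, M * (2 : ℝ) ^ n := by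
          refine sum_le_sum fun j _ => ?_
          calc c j * cor h (S j) ≤ c j * 2 ^ n :=
                mul_le_mul_of_nonneg_left (cor_le _ _) (hc0 j)
            _ ≤ _ := mul_le_mul_of_nonneg_right (hcM j) h2
      _ = (univ \ T).card * (M * (2 : ℝ) ^ n) := by rw [sum_const, nsmul_eq_mul]
      _ ≤ w * (M * (2 : ℝ) ^ n) := mul_le_mul_of_nonneg_right hcard (by positivity)
      _ = _ := by ring
  rw [h0, ← sum_sdiff (subset_univ T), mul_add]
  linarith

theorem sum_prod2 {α : Type} [Fintype α] (φ : Fin t → Fin m → α → ℝ) :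
    ∑ X : Fin t → Fin m → α, ∏ j, ∏ v, φ j v (X j v) = ∏ j, ∏ v, ∑ a, φ j v a := by
  classical
  rw [sum_prod_fun (fun j (y : Fin m → α) => ∏ v, φ j v (y v))]
  exact prod_congr rfl fun j _ => sum_prod_fun _

/-- The number of agreements of the hypothesis with the mixture. -/
def agr (p : Fin m → Fin t) (S : Fin t → Finset (Fin n)) (h : (Fin n → Bool) → Bool)
    (X : Fin t → Fin m → Fin n → Bool) : ℕ :=
  (univ.filter (fun v => h (X (p v) v) = par (S (p v)) (X (p v) v))).card

/-- The moment generating function of the number of agreements. -/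
theorem mgf_le (p : Fin m → Fin t) (S : Fin t → Finset (Fin n)) (h : (Fin n → Bool) → Bool)
    {x : ℝ} (hx : 0 ≤ x) :
    ∑ X : Fin t → Fin m → Fin n → Bool, (1 + x) ^ agr p S h X ≤
      (2 ^ n) ^ (t * m) * Real.exp (x * (m / 2 + (∑ v, cor h (S (p v))) / (2 * 2 ^ n))) := by
  classical
  have hN : (0 : ℝ) < 2 ^ n := by positivity
  have h1 : ∀ X : Fin t → Fin m → Fin n → Bool, (1 + x) ^ agr p S h X =
      ∏ j, ∏ v, (if p v = j then (if h (X j v) = par (S j) (X j v) then 1 + x else 1) else 1) := by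
    intro X
    rw [prod_comm]
    unfold agr
    rw [← prod_const, prod_filter]
    refine prod_congr rfl fun v _ => ?_
    rw [prod_ite_eq univ (p v)
      (fun j => if h (X j v) = par (S j) (X j v) then 1 + x else 1), if_pos (mem_univ _)]
  simp only [h1]
  rw [sum_prod2 (fun j v a => if p v = j then (if h a = par (S j) a then 1 + x else 1) else 1)]
  have h2 : ∀ j v, ∑ a : Fin n → Bool,
      (if p v = j then (if h a = par (S j) a then 1 + x else 1) else 1) ≤
      2 ^ n * (if p v = j then Real.exp (x * (1 / 2 + cor h (S j) / (2 * 2 ^ n))) else 1) := by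
    intro j v
    by_cases hp : p v = j
    · simp only [if_pos hp]
      have h3 : ∀ a : Fin n → Bool, (if h a = par (S j) a then 1 + x else 1) =
          1 + x * (if h a = par (S j) a then 1 else 0) := by
        intro a
        split_ifs <;> ring
      simp only [h3]
      rw [sum_add_distrib, ← mul_sum, sum_boole, card_agree]
      have h4 : ∑ _a : Fin n → Bool, (1 : ℝ) = 2 ^ n := by simp
      rw [h4]
      have h5 := Real.add_one_le_exp (x * (1 / 2 + cor h (S j) / (2 * 2 ^ n)))
      calc (2 : ℝ) ^ n + x * ((2 ^ n + cor h (S j)) / 2) =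
          2 ^ n * (x * (1 / 2 + cor h (S j) / (2 * 2 ^ n)) + 1) := by
            field_simp
            ring
        _ ≤ _ := mul_le_mul_of_nonneg_left h5 hN.le
    · simp only [if_neg hp]
      simp
  calc ∏ j, ∏ v, ∑ a : Fin n → Bool,
      (if p v = j then (if h a = par (S j) a then 1 + x else 1) else 1) ≤
      ∏ j, ∏ v, (2 ^ n * (if p v = j then
        Real.exp (x * (1 / 2 + cor h (S j) / (2 * 2 ^ n))) else 1)) := by
        refine prod_le_prod (fun j _ => prod_nonneg fun v _ => sum_nonneg fun a _ => ?_)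
          fun j _ => prod_le_prod (fun v _ => sum_nonneg fun a _ => ?_) fun v _ => h2 j v
        · split_ifs <;> linarith
        · split_ifs <;> linarith
    _ = (2 ^ n) ^ (t * m) * ∏ v, Real.exp (x * (1 / 2 + cor h (S (p v)) / (2 * 2 ^ n))) := by
        have h6 : ∀ j : Fin t, ∏ v, ((2 : ℝ) ^ n * (if p v = j then
            Real.exp (x * (1 / 2 + cor h (S j) / (2 * 2 ^ n))) else 1)) =
            (2 ^ n) ^ m * ∏ v, (if p v = j then
            Real.exp (x * (1 / 2 + cor h (S j) / (2 * 2 ^ n))) else 1) := by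
          intro j
          rw [prod_mul_distrib, prod_const, card_univ, Fintype.card_fin]
        simp only [h6]
        rw [prod_mul_distrib, prod_const, card_univ, Fintype.card_fin, ← pow_mul, prod_comm,
          mul_comm m t]
        congr 1
        refine prod_congr rfl fun v _ => ?_
        rw [prod_ite_eq univ (p v)
          (fun j => Real.exp (x * (1 / 2 + cor h (S j) / (2 * 2 ^ n)))), if_pos (mem_univ _)]
    _ = _ := by
        rw [← Real.exp_sum]
        congr 2
        rw [← mul_sum, sum_add_distrib, sum_const, card_univ, Fintype.card_fin, nsmul_eq_mul,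
          sum_div]
        ring

/-- Few mixtures have an advantage for a given hypothesis. -/
theorem few_adv {g : ℕ} (hg : 1 ≤ g) (p : Fin m → Fin t) (S : Fin t → Finset (Fin n))
    (h : (Fin n → Bool) → Bool) (hc : ∑ v, cor h (S (p v)) ≤ 2 ^ n * (m / (2 * g))) :
    ((univ.filter (fun X : Fin t → Fin m → Fin n → Bool =>
      g * m + 2 * m ≤ 2 * g * agr p S h X)).card : ℝ) ≤
      (2 ^ n) ^ (t * m) * Real.exp (-(3 * m / (16 * g ^ 2))) := by
  classical
  have hN : (0 : ℝ) < 2 ^ n := by positivity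
  have hg0 : (1 : ℝ) ≤ g := by exact_mod_cast hg
  have hm0 : (0 : ℝ) ≤ m := Nat.cast_nonneg _
  obtain ⟨x, hx⟩ : ∃ x : ℝ, x = 1 / (2 * g) := ⟨_, rfl⟩
  have hx0 : 0 ≤ x := by rw [hx]; positivity
  have h1 := mgf_le p S h hx0
  have hlog : 2 / (4 * g + 1) ≤ Real.log (1 + x) := by
    have h2 := Real.le_log_one_add_of_nonneg hx0
    refine le_trans (le_of_eq ?_) h2
    rw [hx]
    field_simp
    ring
  obtain ⟨a, ha⟩ : ∃ a : ℝ, a = (g + 2) * m / (2 * g) * (2 / (4 * g + 1)) := ⟨_, rfl⟩
  have h3 : ∀ X ∈ univ.filter (fun X : Fin t → Fin m → Fin n → Bool =>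
      g * m + 2 * m ≤ 2 * g * agr p S h X), Real.exp a ≤ (1 + x) ^ agr p S h X := by
    intro X hX
    have h4 := (mem_filter.1 hX).2
    have h5 : ((g * m + 2 * m : ℕ) : ℝ) ≤ ((2 * g * agr p S h X : ℕ) : ℝ) := by exact_mod_cast h4
    push_cast at h5
    have h6 : (g + 2) * m / (2 * g) ≤ (agr p S h X : ℝ) := by
      rw [div_le_iff₀ (by positivity)]
      linarith
    have h7 : (1 + x) ^ agr p S h X = Real.exp (agr p S h X * Real.log (1 + x)) := by
      rw [Real.exp_nat_mul, Real.exp_log (by linarith)]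
    rw [h7, ha]
    refine Real.exp_le_exp.2 (mul_le_mul h6 hlog (by positivity) (by positivity))
  have h8 : ((univ.filter (fun X : Fin t → Fin m → Fin n → Bool =>
      g * m + 2 * m ≤ 2 * g * agr p S h X)).card : ℝ) * Real.exp a ≤
      (2 ^ n) ^ (t * m) * Real.exp (x * (m / 2 + m / (4 * g))) := by
    calc _ = ∑ _X ∈ univ.filter (fun X : Fin t → Fin m → Fin n → Bool =>
          g * m + 2 * m ≤ 2 * g * agr p S h X), Real.exp a := by
          rw [sum_const, nsmul_eq_mul]
      _ ≤ ∑ X ∈ univ.filter (fun X : Fin t → Fin m → Fin n → Bool =>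
          g * m + 2 * m ≤ 2 * g * agr p S h X), (1 + x) ^ agr p S h X := sum_le_sum h3
      _ ≤ ∑ X : Fin t → Fin m → Fin n → Bool, (1 + x) ^ agr p S h X :=
          sum_le_sum_of_subset_of_nonneg (subset_univ _) fun _ _ _ => by positivity
      _ ≤ _ := h1
      _ ≤ _ := by
          refine mul_le_mul_of_nonneg_left (Real.exp_le_exp.2 (mul_le_mul_of_nonneg_left ?_ hx0))
            (by positivity)
          refine add_le_add_right ?_ _
          rw [div_le_iff₀ (by positivity)]
          refine hc.trans (le_of_eq ?_)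
          field_simp
          ring
  have h9 : x * (m / 2 + m / (4 * g)) ≤ -(3 * m / (16 * g ^ 2)) + a := by
    have e1 : -(3 * m / (16 * g ^ 2)) + a - x * (m / 2 + m / (4 * g)) =
        (m : ℝ) * (8 * g - 5) / (16 * g ^ 2 * (4 * g + 1)) := by
      rw [ha, hx]
      field_simp
      ring
    have e2 : 0 ≤ (m : ℝ) * (8 * g - 5) / (16 * g ^ 2 * (4 * g + 1)) := by
      refine div_nonneg (mul_nonneg hm0 (by linarith)) (by positivity)
    linarith
  have h10 : Real.exp (x * (m / 2 + m / (4 * g))) ≤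
      Real.exp (-(3 * m / (16 * g ^ 2))) * Real.exp a := by
    rw [← Real.exp_add]
    exact Real.exp_le_exp.2 h9
  refine le_of_mul_le_mul_right (h8.trans ?_) (Real.exp_pos a)
  rw [mul_assoc]
  exact mul_le_mul_of_nonneg_left h10 (by positivity)

end Pool.Agent.U20.DL
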