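import Mathlib
import Pool.Agent.U20.DL.Mgf
import Pool.Agent.U20.DN.Engine

/-!
# Few mixtures of samples have a good hypothesis
-/

set_option autoImplicit false

open Finset

namespace Pool.Agent.U20.DL

open Pool.Agent.U20.DN (mix)

variable {n m t k : ℕ}

/-- Functions with a small image. -/
theorem few_img {C : Type} [Fintype C] [DecidableEq C] [Nonempty C] (r : ℕ) :
    (univ.filter (fun S : Fin t → C => (univ.image S).card ≤ r)).card ≤
      r ^ t * Fintype.card C ^ r := by
  classical
  have h1 : univ.filter (fun S : Fin t → C => (univ.image S).card ≤ r) ⊆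
      (univ : Finset ((Fin t → Fin r) × (Fin r → C))).image (fun q => q.2 ∘ q.1) := by
    intro S hS
    have hr := (mem_filter.1 hS).2
    rw [mem_image]
    obtain ⟨D, hD⟩ : ∃ D, D = univ.image S := ⟨_, rfl⟩
    rw [← hD] at hr
    have hmem : ∀ j, S j ∈ D := fun j => by
      rw [hD]
      exact mem_image_of_mem _ (mem_univ _)
    refine ⟨(fun j => ⟨(D.equivFin ⟨S j, hmem j⟩).1, lt_of_lt_of_le (D.equivFin ⟨S j, hmem j⟩).2 hr⟩,
      fun i => if h : i.1 < D.card then (D.equivFin.symm ⟨i.1, h⟩).1 else Classical.arbitrary C),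
      mem_univ _, ?_⟩
    funext j
    show (if h : (D.equivFin ⟨S j, hmem j⟩).1 < D.card then
      (D.equivFin.symm ⟨(D.equivFin ⟨S j, hmem j⟩).1, h⟩).1 else Classical.arbitrary C) = S j
    rw [dif_pos (D.equivFin ⟨S j, hmem j⟩).2]
    simp
  refine (card_le_card h1).trans (card_image_le.trans (le_of_eq ?_))
  rw [card_univ, Fintype.card_prod, Fintype.card_fun, Fintype.card_fun, Fintype.card_fin,
    Fintype.card_fin]

/-- The sets of `k` places. -/
abbrev Ks (n k : ℕ) : Type := {A : Finset (Fin n) // A.card = k}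

theorem card_ks : Fintype.card (Ks n k) = n.choose k := by
  rw [Fintype.card_finset_len, Fintype.card_fin]

/-- The points of a sample and a parity of `k` bits. -/
abbrev Pr (n m k : ℕ) : Type := (Fin m → Fin n → Bool) × Ks n k

/-- The sample. -/
def smp (u : Pr n m k) : Fin m → Ex n := labelled (par u.2.1) u.1

theorem adv_agr {g : ℕ} (p : Fin m → Fin t) (h : (Fin n → Bool) → Bool)
    (b : Fin t → Pr n m k) (hadv : Adv g h (mix p smp b)) :
    g * m + 2 * m ≤ 2 * g * agr p (fun j => (b j).2.1) h (fun j => (b j).1) := by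
  classical
  unfold Adv at hadv
  have h1 : errors h (mix p smp b) + agr p (fun j => (b j).2.1) h (fun j => (b j).1) = m := by
    unfold errors agr
    rw [Nat.card_eq_fintype_card, Fintype.card_subtype]
    have h2 := card_filter_add_card_filter_not (s := (univ : Finset (Fin m)))
      (fun v => h ((b (p v)).1 v) = par (b (p v)).2.1 ((b (p v)).1 v))
    rw [card_univ, Fintype.card_fin, add_comm] at h2
    exact h2
  obtain ⟨a, ha⟩ : ∃ a, a = agr p (fun j => (b j).2.1) h (fun j => (b j).1) := ⟨_, rfl⟩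
  obtain ⟨e, he⟩ : ∃ e, e = errors h (mix p smp b) := ⟨_, rfl⟩
  rw [← ha, ← he] at h1
  rw [← he] at hadv
  rw [← ha]
  have h3 : 2 * g * e + 2 * g * a = 2 * (g * m) := by rw [← h1]; ring
  omega

/-- Few mixtures have a hypothesis with an advantage. -/
theorem few_bad {g M : ℕ} (hg : 1 ≤ g) (J : Type) [Fintype J]
    (hyp : J → (Fin n → Bool) → Bool) (hC : 1 ≤ n.choose k)
    (hM : M * (16 * g ^ 2) ≤ m) (ht : 2 * t ^ t ≤ n.choose k ^ (2 * g)) (hgt : 4 * g ≤ t)
    (hK : (2 * Fintype.card J * n.choose k ^ (2 * g)) ^ (4 * g ^ 2) ≤ 2 ^ m)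
    (p : Fin m → Fin t) (hp : ∀ j, (univ.filter (fun v => p v = j)).card ≤ M) :
    ∃ B : Finset (Fin t → Pr n m k), (∀ b i, Adv g (hyp i) (mix p smp b) → b ∈ B) ∧
      B.card * n.choose k ^ (2 * g) ≤ Fintype.card (Pr n m k) ^ t := by
  classical
  have hg0 : (1 : ℝ) ≤ g := by exact_mod_cast hg
  have : Nonempty (Ks n k) := by
    rw [← Fintype.card_pos_iff, card_ks]
    exact hC
  obtain ⟨C, hCe⟩ : ∃ C, C = n.choose k := ⟨_, rfl⟩
  have hcardC : Fintype.card (Ks n k) = C := by rw [card_ks, hCe]
  rw [← hCe] at hC ht hK ⊢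
  obtain ⟨P, hP⟩ : ∃ P, P = (2 ^ n) ^ (t * m) := ⟨_, rfl⟩
  have hU : Fintype.card (Pr n m k) ^ t = P * C ^ t := by
    rw [Fintype.card_prod, hcardC, Fintype.card_fun, Fintype.card_fun, Fintype.card_bool,
      Fintype.card_fin, Fintype.card_fin, mul_pow, hP, ← pow_mul _ m t, mul_comm m t]
  -- few values
  obtain ⟨F, hF⟩ : ∃ F, F = univ.filter (fun S : Fin t → Ks n k =>
    (univ.image S).card ≤ t - 4 * g) := ⟨_, rfl⟩
  have hFc : F.card ≤ t ^ t * C ^ (t - 4 * g) := by
    rw [hF]
    refine (few_img _).trans ?_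
    rw [hcardC]
    exact Nat.mul_le_mul_right _ (Nat.pow_le_pow_left (Nat.sub_le _ _) _)
  obtain ⟨K, hKe⟩ : ∃ K, K = 2 * Fintype.card J * C ^ (2 * g) := ⟨_, rfl⟩
  rw [← hKe] at hK
  -- the sets for a hypothesis
  let A : J → (Fin t → Ks n k) → Finset (Fin t → Fin m → Fin n → Bool) := fun i S =>
    univ.filter (fun X => g * m + 2 * m ≤ 2 * g * agr p (fun j => (S j).1) (hyp i) X)
  have hA : ∀ i S, S ∉ F → (A i S).card * K ≤ P := by
    intro i S hS
    have hS' : t ≤ (univ.image (fun j => (S j).1)).card + 4 * g := by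
      rw [hF, mem_filter, not_and, not_le] at hS
      have h1 := hS (mem_univ _)
      have h2 : (univ.image (fun j => (S j).1)).card = (univ.image S).card := by
        rw [← card_image_of_injective (univ.image S) Subtype.val_injective, image_image]
        rfl
      rw [h2]
      omega
    have h1 := cor_sum_le (hyp i) (fun j => (S j).1) p hp hS'
    have h2 : ∑ v, cor (hyp i) (S (p v)).1 ≤ 2 ^ n * (m / (2 * g)) := by
      refine h1.trans (mul_le_mul_of_nonneg_left ?_ (by positivity))
      have hM' : (M : ℝ) * (16 * g ^ 2) ≤ m := by exact_mod_cast hM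
      have h3 : √((M : ℝ) * m) ≤ m / (4 * g) := by
        rw [Real.sqrt_le_left (by positivity), div_pow, le_div_iff₀ (by positivity)]
        calc (M : ℝ) * m * (4 * g) ^ 2 = M * (16 * g ^ 2) * (m : ℝ) := by ring
          _ ≤ (m : ℝ) * m := mul_le_mul_of_nonneg_right hM' (Nat.cast_nonneg _)
          _ = (m : ℝ) ^ 2 := by ring
      have h4 : ((4 * g : ℕ) : ℝ) * M ≤ m / (4 * g) := by
        rw [le_div_iff₀ (by positivity)]
        push_cast
        calc 4 * (g : ℝ) * M * (4 * g) = M * (16 * g ^ 2) := by ring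
          _ ≤ _ := hM'
      calc _ ≤ (m : ℝ) / (4 * g) + m / (4 * g) := add_le_add h3 h4
        _ = _ := by
          field_simp
          ring
    have h5 := few_adv hg p (fun j => (S j).1) (hyp i) h2
    -- the number K
    have h6 : (K : ℝ) * Real.exp (-(3 * m / (16 * g ^ 2))) ≤ 1 := by
      rcases Nat.eq_zero_or_pos K with h0 | h0
      · rw [h0]
        simp
      have hK0 : (0 : ℝ) < K := by exact_mod_cast h0
      have h7 : Real.log K * (4 * g ^ 2) ≤ m * Real.log 2 := by
        have h8 : ((K ^ (4 * g ^ 2) : ℕ) : ℝ) ≤ ((2 ^ m : ℕ) : ℝ) := by exact_mod_cast hK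
        push_cast at h8
        have h9 := Real.log_le_log (by positivity) h8
        rw [Real.log_pow, Real.log_pow] at h9
        push_cast at h9
        linarith
      have h10 : Real.log K ≤ 3 * m / (16 * g ^ 2) := by
        rw [le_div_iff₀ (by positivity)]
        have h11 : Real.log 2 < 0.6931471808 := Real.log_two_lt_d9
        have h12 : (m : ℝ) * Real.log 2 ≤ m * (3 / 4) :=
          mul_le_mul_of_nonneg_left (by linarith) (Nat.cast_nonneg _)
        calc Real.log K * (16 * g ^ 2) = 4 * (Real.log K * (4 * g ^ 2)) := by ring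
          _ ≤ 4 * ((m : ℝ) * (3 / 4)) := by linarith
          _ = 3 * m := by ring
      calc (K : ℝ) * Real.exp (-(3 * m / (16 * g ^ 2))) =
          Real.exp (Real.log K) * Real.exp (-(3 * m / (16 * g ^ 2))) := by
            rw [Real.exp_log hK0]
        _ = Real.exp (Real.log K - 3 * m / (16 * g ^ 2)) := by
            rw [← Real.exp_add]
            rfl
        _ ≤ Real.exp 0 := Real.exp_le_exp.2 (by linarith)
        _ = 1 := Real.exp_zero
    have h7 : (((A i S).card * K : ℕ) : ℝ) ≤ ((P : ℕ) : ℝ) := by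
      push_cast
      rw [hP]
      push_cast
      calc ((A i S).card : ℝ) * K ≤
          (2 ^ n) ^ (t * m) * Real.exp (-(3 * m / (16 * g ^ 2))) * K :=
            mul_le_mul_of_nonneg_right h5 (Nat.cast_nonneg _)
        _ = (2 ^ n) ^ (t * m) * (K * Real.exp (-(3 * m / (16 * g ^ 2)))) := by ring
        _ ≤ (2 ^ n) ^ (t * m) * 1 := mul_le_mul_of_nonneg_left h6 (by positivity)
        _ = _ := mul_one _
    exact_mod_cast h7
  obtain ⟨B, hB⟩ : ∃ B, B = univ.filter (fun b : Fin t → Pr n m k =>
    ∃ i, Adv g (hyp i) (mix p smp b)) := ⟨_, rfl⟩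
  refine ⟨B, fun b i hb => ?_, ?_⟩
  · rw [hB, mem_filter]
    exact ⟨mem_univ _, i, hb⟩
  -- counting
  let f : (Fin t → Pr n m k) → (Fin t → Fin m → Fin n → Bool) × (Fin t → Ks n k) :=
    fun b => (fun j => (b j).1, fun j => (b j).2)
  have hf : Function.Injective f := by
    intro b b' hbb
    funext j
    have e1 := congrFun (congrArg Prod.fst hbb) j
    have e2 := congrFun (congrArg Prod.snd hbb) j
    exact Prod.ext e1 e2
  obtain ⟨D, hD⟩ : ∃ D, D = (univ : Finset J).biUnion (fun i =>
    (univ \ F).biUnion (fun S => (A i S).product {S})) := ⟨_, rfl⟩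
  have hsub : B.image f ⊆ (univ : Finset (Fin t → Fin m → Fin n → Bool)).product F ∪ D := by
    intro q hq
    obtain ⟨b, hb, rfl⟩ := mem_image.1 hq
    rw [hB, mem_filter] at hb
    obtain ⟨-, i, hi⟩ := hb
    rw [mem_union]
    by_cases h1 : (fun j => (b j).2) ∈ F
    · left
      exact mem_product.2 ⟨mem_univ _, h1⟩
    · right
      rw [hD, mem_biUnion]
      refine ⟨i, mem_univ _, mem_biUnion.2 ⟨fun j => (b j).2, mem_sdiff.2 ⟨mem_univ _, h1⟩, ?_⟩⟩
      refine mem_product.2 ⟨?_, mem_singleton_self _⟩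
      exact mem_filter.2 ⟨mem_univ _, adv_agr p (hyp i) b hi⟩
  have hDc : D.card * K ≤ Fintype.card J * (C ^ t * P) := by
    rw [hD]
    calc _ ≤ (∑ i : J, ∑ S ∈ univ \ F, (A i S).card) * K := by
          refine Nat.mul_le_mul_right _ (card_biUnion_le.trans (sum_le_sum fun i _ =>
            card_biUnion_le.trans (le_of_eq (sum_congr rfl fun S _ => ?_))))
          rw [Finset.product_eq_sprod, card_product, card_singleton, mul_one]
      _ = ∑ i : J, ∑ S ∈ univ \ F, (A i S).card * K := by
          rw [sum_mul]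
          exact sum_congr rfl fun i _ => sum_mul _ _ _
      _ ≤ ∑ _i : J, ∑ _S ∈ univ \ F, P := by
          refine sum_le_sum fun i _ => sum_le_sum fun S hS => hA i S (mem_sdiff.1 hS).2
      _ ≤ ∑ _i : J, C ^ t * P := by
          refine sum_le_sum fun i _ => ?_
          rw [sum_const, smul_eq_mul]
          refine Nat.mul_le_mul_right _ ((card_le_univ _).trans (le_of_eq ?_))
          rw [Fintype.card_fun, Fintype.card_fin, hcardC]
      _ = _ := by rw [sum_const, card_univ, smul_eq_mul]
  have hBc : B.card ≤ P * F.card + D.card := by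
    rw [← card_image_of_injective B hf]
    refine (card_le_card hsub).trans ((card_union_le _ _).trans (Nat.add_le_add_right
      (le_of_eq ?_) _))
    rw [Finset.product_eq_sprod, card_product, card_univ, Fintype.card_fun, Fintype.card_fun,
      Fintype.card_fun, Fintype.card_bool, Fintype.card_fin, Fintype.card_fin, Fintype.card_fin,
      hP, ← pow_mul _ m t, mul_comm m t]
  -- the two parts
  have h1 : P * F.card * C ^ (2 * g) * 2 ≤ P * C ^ t := by
    calc P * F.card * C ^ (2 * g) * 2 ≤ P * (t ^ t * C ^ (t - 4 * g)) * C ^ (2 * g) * 2 := by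
          refine Nat.mul_le_mul_right _ (Nat.mul_le_mul_right _ (Nat.mul_le_mul_left _ hFc))
      _ = P * C ^ (t - 4 * g) * C ^ (2 * g) * (2 * t ^ t) := by ring
      _ ≤ P * C ^ (t - 4 * g) * C ^ (2 * g) * C ^ (2 * g) := Nat.mul_le_mul_left _ ht
      _ = P * C ^ t := by
          rw [mul_assoc, mul_assoc, ← pow_add, ← pow_add]
          congr 2
          omega
  have h2 : D.card * C ^ (2 * g) * 2 ≤ P * C ^ t := by
    rcases Nat.eq_zero_or_pos (Fintype.card J) with h0 | h0
    · have h3 : D.card = 0 := by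
        rw [card_eq_zero, hD]
        have := Fintype.card_eq_zero_iff.1 h0
        rw [univ_eq_empty, biUnion_empty]
      rw [h3, zero_mul, zero_mul]
      exact Nat.zero_le _
    · refine Nat.le_of_mul_le_mul_left (c := Fintype.card J) ?_ h0
      calc Fintype.card J * (D.card * C ^ (2 * g) * 2) = D.card * K := by rw [hKe]; ring
        _ ≤ _ := hDc
        _ = _ := by ring
  rw [hU]
  have h3 : B.card * C ^ (2 * g) ≤ P * F.card * C ^ (2 * g) + D.card * C ^ (2 * g) := by
    rw [← add_mul]
    exact Nat.mul_le_mul_right _ hBc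
  omega

end Pool.Agent.U20.DL
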