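import Pool.Agent.U20.DN.Defs

/-!
# A new disjunction above a set of gates
-/

set_option autoImplicit false

namespace Pool.Agent.U20.DL

open Pool.Agent.U20.DN

variable {V Al I : Type}

/-- The same gate of a circuit with one more gate. -/
def up : Gate V Al I → Gate V Al (Option I)
  | .leaf v P => .leaf v P
  | .triv => .triv
  | .conj j k => .conj (some j) (some k)
  | .disj D => .disj (some '' D)

/-- The circuit with a new gate, the disjunction of the gates in `O`. -/
def withRoot (G : I → Gate V Al I) (O : Set I) : Option I → Gate V Al (Option I)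
  | none => .disj (some '' O)
  | some i => up (G i)

variable {G : I → Gate V Al I} {O : Set I}

theorem up_leaf {γ : Gate V Al I} {v : V} {P : Set Al} (h : up γ = .leaf v P) :
    γ = .leaf v P := by
  cases γ with
  | leaf w Q =>
    have h' : (Gate.leaf w Q : Gate V Al (Option I)) = .leaf v P := h
    rw [Gate.leaf.injEq] at h'
    rw [h'.1, h'.2]
  | triv => exact absurd (show (Gate.triv : Gate V Al (Option I)) = .leaf v P from h) (by simp)
  | conj i j =>
    exact absurd (show (Gate.conj (some i) (some j) : Gate V Al (Option I)) = .leaf v P from h)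
      (by simp)
  | disj D =>
    exact absurd (show (Gate.disj (some '' D) : Gate V Al (Option I)) = .leaf v P from h)
      (by simp)

theorem up_triv {γ : Gate V Al I} (h : up γ = .triv) : γ = .triv := by
  cases γ with
  | leaf w Q => exact absurd (show (Gate.leaf w Q : Gate V Al (Option I)) = .triv from h) (by simp)
  | triv => rfl
  | conj i j =>
    exact absurd (show (Gate.conj (some i) (some j) : Gate V Al (Option I)) = .triv from h)
      (by simp)
  | disj D =>
    exact absurd (show (Gate.disj (some '' D) : Gate V Al (Option I)) = .triv from h)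
      (by simp)

theorem up_conj {γ : Gate V Al I} {j k : Option I} (h : up γ = .conj j k) :
    ∃ j' k', j = some j' ∧ k = some k' ∧ γ = .conj j' k' := by
  cases γ with
  | leaf w Q =>
    exact absurd (show (Gate.leaf w Q : Gate V Al (Option I)) = .conj j k from h) (by simp)
  | triv => exact absurd (show (Gate.triv : Gate V Al (Option I)) = .conj j k from h) (by simp)
  | conj j' k' =>
    have h' : (Gate.conj (some j') (some k') : Gate V Al (Option I)) = .conj j k := h
    rw [Gate.conj.injEq] at h'
    exact ⟨j', k', h'.1.symm, h'.2.symm, rfl⟩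
  | disj D =>
    exact absurd (show (Gate.disj (some '' D) : Gate V Al (Option I)) = .conj j k from h)
      (by simp)

theorem up_disj {γ : Gate V Al I} {D : Set (Option I)} (h : up γ = .disj D) :
    ∃ D', D = some '' D' ∧ γ = .disj D' := by
  cases γ with
  | leaf w Q =>
    exact absurd (show (Gate.leaf w Q : Gate V Al (Option I)) = .disj D from h) (by simp)
  | triv => exact absurd (show (Gate.triv : Gate V Al (Option I)) = .disj D from h) (by simp)
  | conj i j =>
    exact absurd (show (Gate.conj (some i) (some j) : Gate V Al (Option I)) = .disj D from h)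
      (by simp)
  | disj D' =>
    have h' : (Gate.disj (some '' D') : Gate V Al (Option I)) = .disj D := h
    rw [Gate.disj.injEq] at h'
    exact ⟨D', h'.symm, rfl⟩

theorem wr_leaf {i : I} {v : V} {P : Set Al} (h : withRoot G O (some i) = .leaf v P) :
    G i = .leaf v P := up_leaf h

theorem wr_triv {i : I} (h : withRoot G O (some i) = .triv) : G i = .triv := up_triv h

theorem wr_conj {i : I} {j k : Option I} (h : withRoot G O (some i) = .conj j k) :
    ∃ j' k', j = some j' ∧ k = some k' ∧ G i = .conj j' k' := up_conj h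

theorem wr_disj {i : I} {D : Set (Option I)} (h : withRoot G O (some i) = .disj D) :
    ∃ D', D = some '' D' ∧ G i = .disj D' := up_disj h

theorem acc_wr_of {x : V → Al} {i : I} (h : Acc G x i) : Acc (withRoot G O) x (some i) := by
  induction h with
  | leaf i v P h1 h2 => exact .leaf _ v P (by show up (G i) = _; rw [h1]; rfl) h2
  | triv i h1 => exact .triv _ (by show up (G i) = _; rw [h1]; rfl)
  | conj i j k h1 _ _ ih1 ih2 =>
    exact .conj _ (some j) (some k) (by show up (G i) = _; rw [h1]; rfl) ih1 ih2
  | disj i D j h1 h2 _ ih =>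
    exact .disj _ (some '' D) (some j) (by show up (G i) = _; rw [h1]; rfl)
      ⟨j, h2, rfl⟩ ih

theorem acc_of_wr {x : V → Al} {c : Option I} (h : Acc (withRoot G O) x c) :
    ∀ i, c = some i → Acc G x i := by
  induction h with
  | leaf c v P h1 h2 =>
    rintro i rfl
    exact .leaf i v P (wr_leaf h1) h2
  | triv c h1 =>
    rintro i rfl
    exact .triv i (wr_triv h1)
  | conj c j k h1 _ _ ih1 ih2 =>
    rintro i rfl
    obtain ⟨j', k', hj, hk, hG⟩ := wr_conj h1
    exact .conj i j' k' hG (ih1 j' hj) (ih2 k' hk)
  | disj c D j h1 h2 _ ih =>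
    rintro i rfl
    obtain ⟨D', hD, hG⟩ := wr_disj h1
    rw [hD] at h2
    obtain ⟨j', hj', hj⟩ := h2
    exact .disj i D' j' hG hj' (ih j' hj.symm)

theorem acc_root {x : V → Al} : Acc (withRoot G O) x none ↔ ∃ i ∈ O, Acc G x i := by
  constructor
  · intro h
    cases h with
    | leaf _ v P h1 h2 =>
      exact absurd (show (Gate.disj (some '' O) : Gate V Al (Option I)) = .leaf v P from h1)
        (by simp)
    | triv _ h1 =>
      exact absurd (show (Gate.disj (some '' O) : Gate V Al (Option I)) = .triv from h1)
        (by simp)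
    | conj _ j k h1 _ _ =>
      exact absurd (show (Gate.disj (some '' O) : Gate V Al (Option I)) = .conj j k from h1)
        (by simp)
    | disj _ D j h1 h2 h3 =>
      have h4 : (Gate.disj (some '' O) : Gate V Al (Option I)) = .disj D := h1
      rw [Gate.disj.injEq] at h4
      rw [← h4] at h2
      obtain ⟨i, hi, rfl⟩ := h2
      exact ⟨i, hi, acc_of_wr h3 i rfl⟩
  · rintro ⟨i, hi, h⟩
    exact .disj none (some '' O) (some i) rfl ⟨i, hi, rfl⟩ (acc_wr_of h)

theorem wr_child {i : I} {c : Option I} (h : Child (withRoot G O) (some i) c) :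
    ∃ j, c = some j ∧ Child G i j := by
  rcases h with ⟨k, hk⟩ | ⟨k, hk⟩ | ⟨D, hD, hj⟩
  · obtain ⟨j', k', hj, _, hG⟩ := wr_conj hk
    exact ⟨j', hj, Or.inl ⟨k', hG⟩⟩
  · obtain ⟨j', k', _, hk', hG⟩ := wr_conj hk
    exact ⟨k', hk', Or.inr (Or.inl ⟨j', hG⟩)⟩
  · obtain ⟨D', hD', hG⟩ := wr_disj hD
    rw [hD'] at hj
    obtain ⟨j, hj1, hj2⟩ := hj
    exact ⟨j, hj2.symm, Or.inr (Or.inr ⟨D', hG, hj1⟩)⟩

theorem wr_below {c c' : Option I} (h : Below (withRoot G O) c c') :
    ∀ i, c = some i → ∃ j, c' = some j ∧ Below G i j := by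
  unfold Below at h
  induction h with
  | refl =>
    intro i hi
    exact ⟨i, hi, Relation.ReflTransGen.refl⟩
  | tail _ h2 ih =>
    intro i hi
    obtain ⟨j, rfl, hj⟩ := ih i hi
    obtain ⟨l, hl, hl2⟩ := wr_child h2
    exact ⟨l, hl, Relation.ReflTransGen.tail hj hl2⟩

theorem wr_occurs {i : I} {v : V} (h : Occurs (withRoot G O) (some i) v) : Occurs G i v := by
  obtain ⟨c, P, h1, h2⟩ := h
  obtain ⟨j, rfl, hj⟩ := wr_below h1 i rfl
  exact ⟨j, P, hj, wr_leaf h2⟩

theorem wr_decomposable (h : Decomposable G) : Decomposable (withRoot G O) := by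
  intro c j k hg v hv
  cases c with
  | none =>
    exact absurd (show (Gate.disj (some '' O) : Gate V Al (Option I)) = .conj j k from hg)
      (by simp)
  | some i =>
    obtain ⟨j', k', rfl, rfl, hG⟩ := wr_conj hg
    exact h i j' k' hG v ⟨wr_occurs hv.1, wr_occurs hv.2⟩

end Pool.Agent.U20.DL
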