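import Mathlib
import Pool.Agent.U20.DL.Few
import Pool.Agent.U20.DL.Root
import Pool.Agent.U20.DN.Upper

/-!
# Decomposable circuits which find hypotheses for samples of parities
-/

set_option autoImplicit false

open Finset

namespace Pool.Agent.U20.DL

open Pool.Agent.U20.DN

variable {n m k : ℕ}

/-- The size of the parts and the conditions on the constants. -/
theorem consts {g m C : ℕ} (hg : 1 ≤ g) (hC : (256 * g ^ 2) ^ (98 * g) ≤ C)
    (hm : C ^ (16 * g ^ 3) ≤ 2 ^ m) :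
    1 ≤ m / (32 * g ^ 2) ∧ 3 * m + 2 * (m / (32 * g ^ 2)) ≤ m / (32 * g ^ 2) * (192 * g ^ 2 + 2) ∧
      2 * (m / (32 * g ^ 2)) * (16 * g ^ 2) ≤ m ∧
      2 * (192 * g ^ 2 + 2) ^ (192 * g ^ 2 + 2) ≤ C ^ (2 * g) ∧ 4 ≤ C := by
  have hg2 : 1 ≤ g ^ 2 := Nat.one_le_pow _ _ hg
  have hgg : g ≤ g ^ 2 := by rw [sq]; exact Nat.le_mul_of_pos_left _ hg
  have hC4 : 4 ≤ C := by
    calc 4 ≤ 256 * g ^ 2 := by omega
      _ ≤ (256 * g ^ 2) ^ (98 * g) := Nat.le_self_pow (by omega) _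
      _ ≤ C := hC
  have hm32 : 32 * g ^ 2 ≤ m := by
    have h1 : 2 ^ (32 * g ^ 3) ≤ 2 ^ m := by
      calc 2 ^ (32 * g ^ 3) = 4 ^ (16 * g ^ 3) := by
            rw [show (4 : ℕ) = 2 ^ 2 by norm_num, ← pow_mul]
            congr 1
            ring
        _ ≤ C ^ (16 * g ^ 3) := Nat.pow_le_pow_left hC4 _
        _ ≤ _ := hm
    have h2 := (Nat.pow_le_pow_iff_right (by norm_num)).1 h1
    have h3 : g ^ 2 ≤ g ^ 3 := Nat.pow_le_pow_right hg (by norm_num)
    omega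
  obtain ⟨L, hL⟩ : ∃ L, L = 32 * g ^ 2 := ⟨_, rfl⟩
  obtain ⟨θ, hθ⟩ : ∃ θ, θ = m / (32 * g ^ 2) := ⟨_, rfl⟩
  rw [← hθ]
  rw [← hL] at hm32 hθ
  have hL0 : 0 < L := by omega
  have h1 : 1 ≤ θ := by
    rw [hθ]
    exact (Nat.one_le_div_iff hL0).2 hm32
  have h2 : θ * L ≤ m := by
    rw [hθ]
    exact Nat.div_mul_le_self _ _
  have h3 : m < (θ + 1) * L := by
    rw [hθ]
    rw [mul_comm]
    exact Nat.lt_mul_div_succ m hL0
  refine ⟨h1, ?_, ?_, ?_, hC4⟩
  · have h4 : (θ + 1) * L ≤ 2 * (θ * L) := by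
      calc (θ + 1) * L ≤ (2 * θ) * L := Nat.mul_le_mul_right _ (by omega)
        _ = _ := by ring
    have h5 : θ * (192 * g ^ 2 + 2) = 6 * (θ * L) + 2 * θ := by rw [hL]; ring
    omega
  · have h4 : 2 * θ * (16 * g ^ 2) = θ * L := by rw [hL]; ring
    omega
  · obtain ⟨a, ha⟩ : ∃ a, a = 256 * g ^ 2 := ⟨_, rfl⟩
    rw [← ha] at hC
    have ha1 : 192 * g ^ 2 + 2 ≤ a := by omega
    have ha0 : 2 ≤ a := by omega
    calc 2 * (192 * g ^ 2 + 2) ^ (192 * g ^ 2 + 2) ≤ a ^ 1 * a ^ (192 * g ^ 2 + 2) := by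
          rw [pow_one]
          exact Nat.mul_le_mul ha0 (Nat.pow_le_pow_left ha1 _)
      _ = a ^ (192 * g ^ 2 + 3) := by rw [← pow_add]; congr 1; ring
      _ ≤ a ^ (98 * g * (2 * g)) := by
          refine Nat.pow_le_pow_right (by omega) ?_
          have : 98 * g * (2 * g) = 196 * g ^ 2 := by ring
          omega
      _ = (a ^ (98 * g)) ^ (2 * g) := by rw [pow_mul]
      _ ≤ C ^ (2 * g) := Nat.pow_le_pow_left hC _

/-- Circuits which find hypotheses with advantage `1 / g` on samples of parities of `k` bits. -/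
theorem main_learn {g : ℕ} (hg : 1 ≤ g) (hC : (256 * g ^ 2) ^ (98 * g) ≤ n.choose k)
    (hm : n.choose k ^ (16 * g ^ 3) ≤ 2 ^ m)
    (μ : ℕ) (R : Type) [Fintype R] [Nonempty R] (I : R → Type) [∀ ρ, Fintype (I ρ)]
    (G : ∀ ρ, I ρ → Gate (Fin m) (Ex n) (I ρ)) (O : ∀ ρ, Set (I ρ))
    (hyp : ∀ ρ, I ρ → (Fin n → Bool) → Bool)
    (hd : ∀ ρ, Decomposable (G ρ)) (hs : ∀ ρ, Sound g (G ρ) (O ρ) (hyp ρ))
    (hp : Nat.card R * (2 ^ (n * m) * n.choose k) ≤ 2 ^ μ *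
      Nat.card {q : R × (Fin m → Fin n → Bool) × {A : Finset (Fin n) // A.card = k} //
        Finds (G q.1) (O q.1) (labelled (par q.2.2.1) q.2.1)}) :
    ∃ ρ, n.choose k ≤ (2 ^ μ * (Fintype.card (I ρ) + 1)) ^ (2 ^ 16 * g ^ 3) := by
  classical
  obtain ⟨C, hCe⟩ : ∃ C, C = n.choose k := ⟨_, rfl⟩
  obtain ⟨c1, c2, c3, c4, c5⟩ := consts hg hC hm
  have hcardU : Fintype.card (Pr n m k) = 2 ^ (n * m) * C := by
    rw [Fintype.card_prod, card_ks, Fintype.card_fun, Fintype.card_fun, Fintype.card_bool,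
      Fintype.card_fin, Fintype.card_fin, hCe, ← pow_mul]
  -- a circuit which is often successful
  obtain ⟨ρ, hρ⟩ : ∃ ρ : R, Fintype.card (Pr n m k) ≤ 2 ^ μ *
      (univ.filter (fun u : Pr n m k => Finds (G ρ) (O ρ) (smp u))).card := by
    by_contra hcon
    push Not at hcon
    have h1 : ∑ ρ : R, 2 ^ μ *
        (univ.filter (fun u : Pr n m k => Finds (G ρ) (O ρ) (smp u))).card <
        Fintype.card R * Fintype.card (Pr n m k) := by
      calc _ < ∑ _ρ : R, Fintype.card (Pr n m k) :=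
            sum_lt_sum_of_nonempty univ_nonempty (fun ρ _ => hcon ρ)
        _ = _ := by rw [sum_const, card_univ, smul_eq_mul]
    have h2 : Nat.card {q : R × (Fin m → Fin n → Bool) × {A : Finset (Fin n) // A.card = k} //
        Finds (G q.1) (O q.1) (labelled (par q.2.2.1) q.2.1)} =
        ∑ ρ : R, (univ.filter (fun u : Pr n m k => Finds (G ρ) (O ρ) (smp u))).card := by
      rw [Nat.card_eq_fintype_card, Fintype.card_subtype, card_filter, Fintype.sum_prod_type]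
      refine sum_congr rfl fun ρ _ => ?_
      rw [card_filter]
      rfl
    rw [h2, mul_sum, Nat.card_eq_fintype_card, ← hCe, ← hcardU] at hp
    omega
  refine ⟨ρ, ?_⟩
  obtain ⟨s, hs'⟩ : ∃ s, s = Fintype.card (I ρ) := ⟨_, rfl⟩
  rw [← hs', ← hCe]
  rw [← hCe] at hC hm c4 c5
  by_contra hcon
  rw [not_le] at hcon
  have hP1 : 2 ^ 16 * g ^ 3 ≠ 0 := by positivity
  have hsC : s + 1 ≤ C := by
    calc s + 1 ≤ 2 ^ μ * (s + 1) := Nat.le_mul_of_pos_left _ (by positivity)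
      _ ≤ (2 ^ μ * (s + 1)) ^ (2 ^ 16 * g ^ 3) := Nat.le_self_pow hP1 _
      _ ≤ C := hcon.le
  obtain ⟨θ, hθ⟩ : ∃ θ, θ = m / (32 * g ^ 2) := ⟨_, rfl⟩
  obtain ⟨t, ht⟩ : ∃ t, t = 192 * g ^ 2 + 2 := ⟨_, rfl⟩
  rw [← hθ] at c1 c2 c3
  rw [← ht] at c2 c4
  have hK : (2 * Fintype.card (I ρ) * C ^ (2 * g)) ^ (4 * g ^ 2) ≤ 2 ^ m := by
    rw [← hs']
    refine le_trans ?_ hm
    calc (2 * s * C ^ (2 * g)) ^ (4 * g ^ 2) ≤ (C * C * C ^ (2 * g)) ^ (4 * g ^ 2) :=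
          Nat.pow_le_pow_left (Nat.mul_le_mul_right _ (Nat.mul_le_mul (by omega) (by omega))) _
      _ ≤ (C ^ (4 * g)) ^ (4 * g ^ 2) := by
          refine Nat.pow_le_pow_left ?_ _
          calc C * C * C ^ (2 * g) = C ^ (2 * g + 2) := by ring
            _ ≤ C ^ (4 * g) := Nat.pow_le_pow_right (by omega) (by omega)
      _ = _ := by
          rw [← pow_mul]
          congr 1
          ring
  have hg2 : 1 ≤ g ^ 2 := Nat.one_le_pow _ _ hg
  have hgg : g ≤ g ^ 2 := by rw [sq]; exact Nat.le_mul_of_pos_left _ hg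
  have : Nonempty (Pr n m k) := by
    rw [← Fintype.card_pos_iff, hcardU]
    exact Nat.mul_pos (by positivity) (by omega)
  obtain ⟨-, h1⟩ := rand_dnnf 0 Unit (fun _ => Option (I ρ)) (fun _ => withRoot (G ρ) (O ρ))
    (fun _ => none) (fun _ => wr_decomposable (hd ρ)) c1
    (by rw [Fintype.card_fin]; exact c2)
    smp (univ.filter (fun u : Pr n m k => Finds (G ρ) (O ρ) (smp u))) hρ
    (by
      intro u hu
      have h2 : Finds (G ρ) (O ρ) (smp u) := (mem_filter.1 hu).2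
      have h3 : Nat.card {ρ' : Unit // Acc (withRoot (G ρ) (O ρ)) (smp u) none} = 1 := by
        rw [Nat.card_eq_fintype_card, Fintype.card_subtype, filter_true_of_mem]
        · rfl
        · intro _ _
          exact acc_root.2 h2
      rw [h3, Nat.card_unique]
      norm_num)
    (N := C ^ (2 * g)) (by
      intro _ p hp
      obtain ⟨B, hB1, hB2⟩ := few_bad (n := n) (k := k) hg (I ρ) (hyp ρ) (by omega) c3
        (by rw [← hCe]; exact c4) (by omega) (by rw [← hCe]; exact hK) p hp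
      rw [← hCe] at hB2
      refine ⟨B, fun b hb => ?_, hB2⟩
      obtain ⟨i, hi, hacc⟩ := acc_root.1 hb
      exact hB1 b i (hs ρ i hi _ hacc))
  rw [Fintype.card_option, ← hs', zero_add] at h1
  have hb1 : 1 ≤ 2 ^ μ * (s + 1) := Nat.mul_pos (by positivity) (by omega)
  have h4 : C ^ (2 * g) ≤ ((2 ^ μ * (s + 1)) ^ (2 ^ 16 * g ^ 3)) ^ (2 * g) := by
    calc C ^ (2 * g) ≤ (2 ^ μ * (s + 1) ^ (2 * t)) ^ t := h1
      _ ≤ ((2 ^ μ) ^ (2 * t) * (s + 1) ^ (2 * t)) ^ t := by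
          refine Nat.pow_le_pow_left (Nat.mul_le_mul_right _ ?_) _
          exact Nat.le_self_pow (by omega) _
      _ = (2 ^ μ * (s + 1)) ^ (2 * t * t) := by rw [← mul_pow, ← pow_mul]
      _ ≤ (2 ^ μ * (s + 1)) ^ (2 ^ 16 * g ^ 3 * (2 * g)) := by
          refine Nat.pow_le_pow_right hb1 ?_
          have h5 : t ≤ 194 * g ^ 2 := by omega
          calc 2 * t * t ≤ 2 * (194 * g ^ 2) * (194 * g ^ 2) :=
                Nat.mul_le_mul (Nat.mul_le_mul_left _ h5) h5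
            _ = 75272 * g ^ 4 := by ring
            _ ≤ 2 ^ 17 * g ^ 4 := Nat.mul_le_mul_right _ (by norm_num)
            _ = _ := by ring
      _ = _ := by rw [pow_mul]
  have h6 := lt_of_lt_of_le (Nat.pow_lt_pow_left hcon (show 2 * g ≠ 0 by omega)) h4
  exact lt_irrefl _ h6

end Pool.Agent.U20.DL
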