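import Mathlib
import Pool.Agent.U20.DL.Main
import Pool.Agent.W964.Wd.DnfDefs

/-!
# Parities as DNF formulas, the case of polynomial size, and the upper bound
-/

set_option autoImplicit false

open Finset

namespace Pool.Agent.U20.DL

open Pool.Agent.U20.DN Pool.Agent.W964.Wd

variable {n m k : ℕ}

/-- The parity of `k` bits has a DNF formula with `2 ^ (k - 1) + 1` gates. -/
theorem par_dnf {k : ℕ} (hk : 1 ≤ k) (A : Finset (Fin n)) (hA : A.card = k) :
    IsDnf (2 ^ (k - 1) + 1) (par A) := by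
  classical
  obtain ⟨a, ha⟩ : ∃ a, a ∈ A := by
    rw [← Finset.Nonempty, ← card_pos]
    omega
  obtain ⟨P, hP⟩ : ∃ P, P = A.powerset.filter (fun B => Odd B.card) := ⟨_, rfl⟩
  have hPc : P.card ≤ 2 ^ (k - 1) := by
    have h1 : (P.image (fun B => B.erase a)).card = P.card := by
      refine card_image_of_injOn fun B hB B' hB' h => ?_
      rw [hP, mem_coe, mem_filter] at hB hB'
      have h : B.erase a = B'.erase a := h
      by_cases h1 : a ∈ B <;> by_cases h2 : a ∈ B'
      · rw [← insert_erase h1, ← insert_erase h2, h]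
      · exfalso
        have h3 := card_erase_of_mem h1
        rw [h, erase_eq_of_notMem h2] at h3
        have h4 := card_pos.2 ⟨a, h1⟩
        obtain ⟨c, hc⟩ := hB.2
        obtain ⟨d, hd⟩ := hB'.2
        omega
      · exfalso
        have h3 := card_erase_of_mem h2
        rw [← h, erase_eq_of_notMem h1] at h3
        have h4 := card_pos.2 ⟨a, h2⟩
        obtain ⟨c, hc⟩ := hB.2
        obtain ⟨d, hd⟩ := hB'.2
        omega
      · rw [erase_eq_of_notMem h1, erase_eq_of_notMem h2] at h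
        exact h
    rw [← h1]
    calc (P.image (fun B => B.erase a)).card ≤ (A.erase a).powerset.card := by
          refine card_le_card fun B hB => ?_
          obtain ⟨B', hB', rfl⟩ := mem_image.1 hB
          rw [hP, mem_filter, mem_powerset] at hB'
          exact mem_powerset.2 (erase_subset_erase a hB'.1)
      _ = 2 ^ (k - 1) := by rw [card_powerset, card_erase_of_mem ha, hA]
  refine ⟨P.card, fun i => A.image (fun j => (j, decide (j ∈ (P.equivFin.symm i).1))), by omega,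
    fun x => ?_⟩
  unfold par
  rw [decide_eq_true_iff]
  constructor
  · intro hx
    have hmem : A.filter (fun i => x i = true) ∈ P := by
      rw [hP, mem_filter, mem_powerset]
      exact ⟨filter_subset _ _, hx⟩
    refine ⟨P.equivFin ⟨_, hmem⟩, fun q hq => ?_⟩
    obtain ⟨j, hj, rfl⟩ := mem_image.1 hq
    show x j = decide (j ∈ (P.equivFin.symm (P.equivFin ⟨_, hmem⟩)).1)
    rw [Equiv.symm_apply_apply]
    cases hxj : x j
    · rw [eq_comm, decide_eq_false_iff_not, mem_filter]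
      rintro ⟨-, h⟩
      rw [hxj] at h
      exact Bool.noConfusion h
    · rw [eq_comm, decide_eq_true_iff, mem_filter]
      exact ⟨hj, hxj⟩
  · rintro ⟨i, hi⟩
    have hB0 : ∀ B ∈ P, B ⊆ A ∧ Odd B.card := by
      intro B hB
      rw [hP, mem_filter, mem_powerset] at hB
      exact hB
    have hB := hB0 _ (P.equivFin.symm i).2
    have h1 : A.filter (fun i => x i = true) = (P.equivFin.symm i).1 := by
      ext j
      rw [mem_filter]
      constructor
      · rintro ⟨hj, hx⟩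
        have h2 := hi _ (mem_image_of_mem _ hj)
        have h3 : x j = decide (j ∈ (P.equivFin.symm i).1) := h2
        rw [hx, eq_comm, decide_eq_true_iff] at h3
        exact h3
      · intro hj
        have hj' := hB.1 hj
        have h2 := hi _ (mem_image_of_mem _ hj')
        have h3 : x j = decide (j ∈ (P.equivFin.symm i).1) := h2
        rw [decide_eq_true hj] at h3
        exact ⟨hj', h3⟩
    rw [h1]
    exact hB.2

/-- The binomial coefficient for `n = 2 ^ k`. -/
theorem pow_le_choose_sq {k : ℕ} (hk : 8 ≤ k) : 2 ^ (k * k) ≤ (2 ^ k).choose k ^ 2 := by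
  have h1 : ∀ k : ℕ, 8 ≤ k → k ^ 2 ≤ 2 ^ (k - 2) := by
    intro k hk
    induction k, hk using Nat.le_induction with
    | base => norm_num
    | succ j hj ih =>
      have e : j + 1 - 2 = (j - 2) + 1 := by omega
      rw [e, pow_succ 2 (j - 2)]
      have h2 : (j + 1) ^ 2 ≤ 2 * j ^ 2 := by nlinarith
      omega
  have h2 : k ≤ 2 ^ (k - 1) := by
    have := Nat.lt_two_pow_self (n := k - 1)
    omega
  have h3 : 2 ^ k = 2 ^ (k - 1) + 2 ^ (k - 1) := by
    obtain ⟨j, rfl⟩ : ∃ j, k = j + 1 := ⟨k - 1, by omega⟩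
    rw [Nat.add_sub_cancel, pow_succ]
    ring
  have h4 : k ^ 2 * 2 ^ k ≤ (2 ^ k + 1 - k) ^ 2 := by
    calc k ^ 2 * 2 ^ k ≤ 2 ^ (k - 2) * 2 ^ k := Nat.mul_le_mul_right _ (h1 k hk)
      _ = (2 ^ (k - 1)) ^ 2 := by
          rw [← pow_add, ← pow_mul]
          congr 1
          omega
      _ ≤ _ := Nat.pow_le_pow_left (by omega) 2
  have h5 : (2 ^ k + 1 - k) ^ k ≤ k ^ k * (2 ^ k).choose k := by
    refine (Nat.pow_sub_le_descFactorial (2 ^ k) k).trans ?_
    rw [Nat.descFactorial_eq_factorial_mul_choose]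
    exact Nat.mul_le_mul_right _ (Nat.factorial_le_pow k)
  refine Nat.le_of_mul_le_mul_left (c := (k ^ k) ^ 2) ?_ (by positivity)
  have h6 : (k ^ k) ^ 2 * 2 ^ (k * k) = (k ^ 2 * 2 ^ k) ^ k := by
    rw [mul_pow, ← pow_mul, ← pow_mul, ← pow_mul, mul_comm 2 k]
  have h7 : ((2 ^ k + 1 - k) ^ 2) ^ k = ((2 ^ k + 1 - k) ^ k) ^ 2 := by
    rw [← pow_mul, ← pow_mul, mul_comm 2 k]
  rw [h6, ← mul_pow]
  refine (Nat.pow_le_pow_left h4 _).trans ?_
  rw [h7]
  exact Nat.pow_le_pow_left h5 2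

theorem choose_le_sq (k : ℕ) : (2 ^ k).choose k ≤ 2 ^ (k * k) := by
  calc (2 ^ k).choose k ≤ (2 ^ k) ^ k := Nat.choose_le_pow _ _
    _ = _ := by rw [← pow_mul]

theorem consts2 {g k m : ℕ} (hg : 1 ≤ g) (hk : 40 * g ≤ k) (hm : 16 * g ^ 3 * k ^ 2 ≤ m) :
    (256 * g ^ 2) ^ (98 * g) ≤ (2 ^ k).choose k ∧ (2 ^ k).choose k ^ (16 * g ^ 3) ≤ 2 ^ m := by
  constructor
  · have h1 : g ≤ 2 ^ (g - 1) := by
      have := Nat.lt_two_pow_self (n := g - 1)
      omega
    have h2 : 256 * g ^ 2 ≤ 2 ^ (2 * g + 6) := by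
      calc 256 * g ^ 2 ≤ 256 * (2 ^ (g - 1)) ^ 2 := Nat.mul_le_mul_left _ (Nat.pow_le_pow_left h1 2)
        _ = 2 ^ (2 * g + 6) := by
            rw [show (256 : ℕ) = 2 ^ 8 by norm_num, ← pow_mul, ← pow_add]
            congr 1
            omega
    have h3 : ((256 * g ^ 2) ^ (98 * g)) ^ 2 ≤ (2 ^ k).choose k ^ 2 := by
      calc ((256 * g ^ 2) ^ (98 * g)) ^ 2 ≤ ((2 ^ (2 * g + 6)) ^ (98 * g)) ^ 2 :=
            Nat.pow_le_pow_left (Nat.pow_le_pow_left h2 _) 2
        _ = 2 ^ ((2 * g + 6) * (98 * g) * 2) := by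
            rw [← pow_mul, ← pow_mul]
            congr 1
            ring
        _ ≤ 2 ^ (k * k) := by
            refine Nat.pow_le_pow_right (by norm_num) ?_
            calc (2 * g + 6) * (98 * g) * 2 ≤ (2 * g + 6 * g) * (98 * g) * 2 :=
                  Nat.mul_le_mul_right _ (Nat.mul_le_mul_right _ (by omega))
              _ = 1568 * (g * g) := by ring
              _ ≤ 1600 * (g * g) := Nat.mul_le_mul_right _ (by norm_num)
              _ = (40 * g) * (40 * g) := by ring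
              _ ≤ k * k := Nat.mul_le_mul hk hk
        _ ≤ _ := pow_le_choose_sq (by omega)
    exact (Nat.pow_le_pow_iff_left (by norm_num)).1 h3
  · calc (2 ^ k).choose k ^ (16 * g ^ 3) ≤ (2 ^ (k * k)) ^ (16 * g ^ 3) :=
          Nat.pow_le_pow_left (choose_le_sq k) _
      _ = 2 ^ (16 * g ^ 3 * k ^ 2) := by
          rw [← pow_mul]
          congr 1
          ring
      _ ≤ _ := Nat.pow_le_pow_right (by norm_num) hm

/-- The case of formulas whose size is the number of variables. -/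
theorem main_poly {g k m : ℕ} (hg : 1 ≤ g) (hk : 40 * g ≤ k) (hm : 16 * g ^ 3 * k ^ 2 ≤ m)
    (μ : ℕ) (R : Type) [Fintype R] [Nonempty R] (I : R → Type) [∀ ρ, Fintype (I ρ)]
    (G : ∀ ρ, I ρ → Gate (Fin m) (Ex (2 ^ k)) (I ρ)) (O : ∀ ρ, Set (I ρ))
    (hyp : ∀ ρ, I ρ → (Fin (2 ^ k) → Bool) → Bool)
    (hd : ∀ ρ, Decomposable (G ρ)) (hs : ∀ ρ, Sound g (G ρ) (O ρ) (hyp ρ))
    (hp : ∀ f : (Fin (2 ^ k) → Bool) → Bool, IsDnf (2 ^ k) f →
      Nat.card R * 2 ^ (2 ^ k * m) ≤ 2 ^ μ *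
        Nat.card {q : R × (Fin m → Fin (2 ^ k) → Bool) //
          Finds (G q.1) (O q.1) (labelled f q.2)}) :
    ∃ ρ, 2 ^ (k ^ 2) ≤ (2 ^ μ * (Fintype.card (I ρ) + 1)) ^ (2 ^ 17 * g ^ 3) := by
  classical
  obtain ⟨h1, h2⟩ := consts2 hg hk hm
  obtain ⟨ρ, hρ⟩ := main_learn hg h1 h2 μ R I G O hyp hd hs (by
    have e1 : Nat.card {q : R × (Fin m → Fin (2 ^ k) → Bool) ×
        {A : Finset (Fin (2 ^ k)) // A.card = k} //
        Finds (G q.1) (O q.1) (labelled (par q.2.2.1) q.2.1)} =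
        ∑ A : {A : Finset (Fin (2 ^ k)) // A.card = k},
          Nat.card {q : R × (Fin m → Fin (2 ^ k) → Bool) //
            Finds (G q.1) (O q.1) (labelled (par A.1) q.2)} := by
      rw [Nat.card_eq_fintype_card, Fintype.card_subtype, card_filter, Fintype.sum_prod_type]
      simp only [Fintype.sum_prod_type]
      have e2 : ∀ A : {A : Finset (Fin (2 ^ k)) // A.card = k},
          Nat.card {q : R × (Fin m → Fin (2 ^ k) → Bool) //
            Finds (G q.1) (O q.1) (labelled (par A.1) q.2)} =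
          ∑ ρ : R, ∑ X : Fin m → Fin (2 ^ k) → Bool,
            if Finds (G ρ) (O ρ) (labelled (par A.1) X) then 1 else 0 := by
        intro A
        rw [Nat.card_eq_fintype_card, Fintype.card_subtype, card_filter, Fintype.sum_prod_type]
      simp only [e2]
      rw [sum_comm (s := (univ : Finset {A : Finset (Fin (2 ^ k)) // A.card = k}))]
      refine sum_congr rfl fun ρ _ => ?_
      rw [sum_comm]
    rw [e1, mul_sum]
    have e3 : ∀ A : {A : Finset (Fin (2 ^ k)) // A.card = k},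
        Nat.card R * 2 ^ (2 ^ k * m) ≤ 2 ^ μ *
          Nat.card {q : R × (Fin m → Fin (2 ^ k) → Bool) //
            Finds (G q.1) (O q.1) (labelled (par A.1) q.2)} := by
      intro A
      refine hp _ ?_
      obtain ⟨r, T, h3, h4⟩ := par_dnf (by omega) A.1 A.2
      refine ⟨r, T, h3.trans ?_, h4⟩
      obtain ⟨j, hj⟩ : ∃ j, k = j + 1 := ⟨k - 1, by omega⟩
      rw [hj, Nat.add_sub_cancel, pow_succ]
      have : 1 ≤ 2 ^ j := Nat.one_le_two_pow
      omega
    calc Nat.card R * (2 ^ (2 ^ k * m) * (2 ^ k).choose k) =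
        ∑ _A : {A : Finset (Fin (2 ^ k)) // A.card = k}, Nat.card R * 2 ^ (2 ^ k * m) := by
          rw [sum_const, card_univ, Fintype.card_finset_len, Fintype.card_fin, smul_eq_mul]
          ring
      _ ≤ _ := sum_le_sum fun A _ => e3 A)
  refine ⟨ρ, ?_⟩
  calc 2 ^ (k ^ 2) = 2 ^ (k * k) := by rw [sq]
    _ ≤ (2 ^ k).choose k ^ 2 := pow_le_choose_sq (by omega)
    _ ≤ ((2 ^ μ * (Fintype.card (I ρ) + 1)) ^ (2 ^ 16 * g ^ 3)) ^ 2 := Nat.pow_le_pow_left hρ 2
    _ = _ := by
        rw [← pow_mul]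
        congr 1
        ring

/-- The circuit which tries all parities of `k` bits. -/
theorem upper_learn (n m k : ℕ) :
    ∃ (I : Type) (_ : Fintype I) (G : I → Gate (Fin m) (Ex n) I) (O : Set I)
      (hyp : I → (Fin n → Bool) → Bool),
      Decomposable G ∧ Fintype.card I = n.choose k * (2 * m + 1) + 1 ∧
        (∀ i ∈ O, ∀ S : Fin m → Ex n, Acc G S i → errors (hyp i) S = 0) ∧
        ∀ A : Finset (Fin n), A.card = k → ∀ X : Fin m → Fin n → Bool,
          ∃ i ∈ O, hyp i = par A ∧ Acc G (labelled (par A) X) i := by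
  classical
  obtain ⟨φ, hφ⟩ : ∃ φ : {A : Finset (Fin n) // A.card = k} → Fin m → Ex n → Prop,
    φ = fun A _ e => par A.1 e.1 = e.2 := ⟨_, rfl⟩
  have h0 : (⟨0, Nat.lt_succ_of_le (Nat.zero_le _)⟩ : Fin (Fintype.card (Fin m) + 1)) = 0 := rfl
  have h1 : ∀ (A : {A : Finset (Fin n) // A.card = k}) (S : Fin m → Ex n),
      Acc (ub φ) S (some (A, Sum.inl 0)) ↔ ∀ v, par A.1 (S v).1 = (S v).2 := by
    intro A S
    rw [← h0, acc_chain_iff _ 0 (Nat.zero_le _) rfl, hφ]
    exact ⟨fun h v => h v (Nat.zero_le _), fun h v _ => h v⟩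
  refine ⟨UI (Fin m) {A : Finset (Fin n) // A.card = k}, inferInstance, ub φ,
    {i | ∃ A, i = some (A, Sum.inl 0)}, fun i => match i with
      | none => fun _ => true
      | some (A, _) => par A.1, ub_decomposable _, ?_, ?_, ?_⟩
  · rw [card_ui, Fintype.card_finset_len, Fintype.card_fin, Fintype.card_fin]
  · rintro i ⟨A, rfl⟩ S hS
    have h2 := (h1 A S).1 hS
    unfold errors
    rw [Nat.card_eq_zero]
    left
    exact ⟨fun i => i.2 (h2 i.1)⟩
  · intro A hA X
    exact ⟨some (⟨A, hA⟩, Sum.inl 0), ⟨⟨A, hA⟩, rfl⟩, rfl, (h1 _ _).2 fun v => rfl⟩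

end Pool.Agent.U20.DL
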