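import Mathlib
import Pool.Agent.U20.DL.Final
import Pool.Agent.TH700.PA.Density
import Pool.Agent.TH700.PA.Count

/-!
# Tensor networks which recognise samples of small DNF formulas
-/

set_option autoImplicit false

open Finset

namespace Pool.Agent.U20.DL

open Pool.Agent.U20.DN (mix)
open Pool.Agent.TH700.PA Pool.Agent.W964.Wd

variable {n m k : ℕ}

/-- Tensor networks which distinguish samples of parities of `k` bits from samples on which no
hypothesis of a finite class has an advantage. -/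
theorem main_refute {g : ℕ} (hg : 1 ≤ g) (hC : (256 * g ^ 2) ^ (400 * g) ≤ n.choose k)
    (H : Finset ((Fin n → Bool) → Bool))
    (hm : (2 * H.card * n.choose k ^ (2 * g)) ^ (4 * g ^ 2) ≤ 2 ^ m) (hmm : 32 * g ^ 2 ≤ m)
    (μ : ℕ) (R : Type) [Fintype R] [Nonempty R] (K W : R → Type) [∀ ρ, Field (K ρ)]
    [∀ ρ, Fintype (W ρ)] (T : ∀ ρ, Net (K ρ) (Fin m) (Ex n) (W ρ)) (c : ∀ ρ, W ρ → K ρ)
    (h1 : ∀ ρ e, (T ρ).reads e ≤ 1)
    (hno : ∀ ρ (S : Fin m → Ex n), (∀ h ∈ H, ¬ Adv g h S) → (T ρ).value (c ρ) S = 0)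
    (hp : Nat.card R * (2 ^ (n * m) * n.choose k) ≤ 2 ^ μ *
      Nat.card {q : R × (Fin m → Fin n → Bool) × {A : Finset (Fin n) // A.card = k} //
        (T q.1).value (c q.1) (labelled (par q.2.2.1) q.2.1) ≠ 0}) :
    ∃ ρ, n.choose k ≤ (2 ^ μ * Fintype.card (W ρ)) ^ (2 ^ 10 * g) := by
  classical
  obtain ⟨C, hCe⟩ : ∃ C, C = n.choose k := ⟨_, rfl⟩
  have hg2 : 1 ≤ g ^ 2 := Nat.one_le_pow _ _ hg
  have hgg : g ≤ g ^ 2 := by rw [sq]; exact Nat.le_mul_of_pos_left _ hg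
  have hcardU : Fintype.card (Pr n m k) = 2 ^ (n * m) * C := by
    rw [Fintype.card_prod, card_ks, Fintype.card_fun, Fintype.card_fun, Fintype.card_bool,
      Fintype.card_fin, Fintype.card_fin, hCe, ← pow_mul]
  -- a network which is often successful
  obtain ⟨ρ, hρ⟩ : ∃ ρ : R, Fintype.card (Pr n m k) ≤ 2 ^ μ *
      (univ.filter (fun u : Pr n m k => (T ρ).value (c ρ) (smp u) ≠ 0)).card := by
    by_contra hcon
    push Not at hcon
    have h2 : ∑ ρ : R, 2 ^ μ *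
        (univ.filter (fun u : Pr n m k => (T ρ).value (c ρ) (smp u) ≠ 0)).card <
        Fintype.card R * Fintype.card (Pr n m k) := by
      calc _ < ∑ _ρ : R, Fintype.card (Pr n m k) :=
            sum_lt_sum_of_nonempty univ_nonempty (fun ρ _ => hcon ρ)
        _ = _ := by rw [sum_const, card_univ, smul_eq_mul]
    have h3 : Nat.card {q : R × (Fin m → Fin n → Bool) × {A : Finset (Fin n) // A.card = k} //
        (T q.1).value (c q.1) (labelled (par q.2.2.1) q.2.1) ≠ 0} =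
        ∑ ρ : R, (univ.filter (fun u : Pr n m k => (T ρ).value (c ρ) (smp u) ≠ 0)).card := by
      rw [Nat.card_eq_fintype_card, Fintype.card_subtype, card_filter, Fintype.sum_prod_type]
      refine sum_congr rfl fun ρ _ => ?_
      rw [card_filter]
      rfl
    rw [h3, mul_sum, Nat.card_eq_fintype_card, ← hCe, ← hcardU] at hp
    omega
  refine ⟨ρ, ?_⟩
  rw [← hCe] at hC hm ⊢
  have hC4 : 4 ≤ C := by
    calc 4 ≤ 256 * g ^ 2 := by omega
      _ ≤ (256 * g ^ 2) ^ (400 * g) := Nat.le_self_pow (by omega) _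
      _ ≤ C := hC
  -- the constants
  obtain ⟨L, hL⟩ : ∃ L, L = 32 * g ^ 2 := ⟨_, rfl⟩
  obtain ⟨θ, hθ⟩ : ∃ θ, θ = m / L := ⟨_, rfl⟩
  obtain ⟨t, ht⟩ : ∃ t, t = 192 * g ^ 2 + 2 := ⟨_, rfl⟩
  rw [← hL] at hmm
  have hL0 : 0 < L := by omega
  have hθ1 : 1 ≤ θ := by
    rw [hθ]
    exact (Nat.one_le_div_iff hL0).2 hmm
  have hθ2 : θ * L ≤ m := by
    rw [hθ]
    exact Nat.div_mul_le_self _ _
  have hθ3 : m < (θ + 1) * L := by
    rw [hθ, mul_comm]
    exact Nat.lt_mul_div_succ m hL0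
  have hE : 2 * m + θ ≤ θ * t := by
    have h4 : (θ + 1) * L ≤ 2 * (θ * L) := by
      calc (θ + 1) * L ≤ (2 * θ) * L := Nat.mul_le_mul_right _ (by omega)
        _ = _ := by ring
    have h5 : θ * t = 6 * (θ * L) + 2 * θ := by rw [hL, ht]; ring
    omega
  have hM : 2 * θ * (16 * g ^ 2) ≤ m := by
    have h4 : 2 * θ * (16 * g ^ 2) = θ * L := by rw [hL]; ring
    omega
  obtain ⟨a, ha⟩ : ∃ a, a = 256 * g ^ 2 := ⟨_, rfl⟩
  rw [← ha] at hC
  have hbig : (2 * t) ^ (t + 1) ≤ C ^ g := by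
    have e1 : 2 * t ≤ a ^ 2 := by
      have : a * 2 ≤ a * a := Nat.mul_le_mul_left _ (by omega)
      rw [sq]
      omega
    calc (2 * t) ^ (t + 1) ≤ (a ^ 2) ^ (t + 1) := Nat.pow_le_pow_left e1 _
      _ = a ^ (2 * (t + 1)) := by rw [← pow_mul]
      _ ≤ a ^ (400 * g * g) := by
          refine Nat.pow_le_pow_right (by omega) ?_
          have : 400 * g * g = 400 * g ^ 2 := by ring
          omega
      _ = (a ^ (400 * g)) ^ g := by rw [pow_mul]
      _ ≤ C ^ g := Nat.pow_le_pow_left hC _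
  have hth : 2 * t ^ t ≤ C ^ (2 * g) := by
    calc 2 * t ^ t ≤ (2 * t) * (2 * t) ^ t :=
          Nat.mul_le_mul (by omega) (Nat.pow_le_pow_left (by omega) _)
      _ = (2 * t) ^ (t + 1) := by rw [pow_succ]; ring
      _ ≤ C ^ g := hbig
      _ ≤ _ := Nat.pow_le_pow_right (by omega) (by omega)
  have : Nonempty (Pr n m k) := by
    rw [← Fintype.card_pos_iff, hcardU]
    exact Nat.mul_pos (by positivity) (by omega)
  obtain ⟨-, h2, hw1⟩ := rand_density 0 Unit (fun _ => K ρ) (fun _ => W ρ) (fun _ => T ρ)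
    (fun _ => c ρ) (fun _ => h1 ρ) hθ1 (t := t) (by omega)
    (by rw [Fintype.card_fin]; exact hE)
    smp (univ.filter (fun u : Pr n m k => (T ρ).value (c ρ) (smp u) ≠ 0)) hρ
    (by
      intro u hu
      have h2 : (T ρ).value (c ρ) (smp u) ≠ 0 := (mem_filter.1 hu).2
      have h3 : Nat.card {ρ' : Unit // (T ρ).value (c ρ) (smp u) ≠ 0} = 1 := by
        rw [Nat.card_eq_fintype_card, Fintype.card_subtype, filter_true_of_mem]
        · rfl
        · intro _ _
          exact h2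
      rw [h3, Nat.card_unique]
      norm_num)
    (N := C ^ (2 * g)) (by
      intro _ p hp
      obtain ⟨B, hB1, hB2⟩ := few_bad (n := n) (k := k) hg {h // h ∈ H} (fun h => h.1) (by omega)
        hM (by rw [← hCe]; exact hth) (by omega)
        (by rw [← hCe, Fintype.card_coe]; exact hm) p hp
      rw [← hCe] at hB2
      refine ⟨B, fun b hb => ?_, hB2⟩
      by_contra hcon
      refine hb (hno ρ _ fun h hh hadv => hcon (hB1 b ⟨h, hh⟩ hadv)))
  obtain ⟨w, hw⟩ : ∃ w, w = Fintype.card (W ρ) := ⟨_, rfl⟩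
  rw [← hw] at h2 hw1 ⊢
  have hX1 : 1 ≤ 2 ^ μ * w := Nat.mul_pos (by positivity) hw1
  have h3 : C ^ g * C ^ g ≤ C ^ g * ((2 ^ μ * w) ^ (2 ^ 10 * g)) ^ g := by
    calc C ^ g * C ^ g = C ^ (2 * g) := by rw [← pow_add]; congr 1; ring
      _ ≤ (2 ^ (0 + μ + 1) * (t * w ^ 3)) ^ (t + 1) := h2
      _ ≤ (2 * t * (2 ^ μ * w) ^ 3) ^ (t + 1) := by
          refine Nat.pow_le_pow_left ?_ _
          have e3 : 2 ^ μ ≤ (2 ^ μ) ^ 3 := Nat.le_self_pow (by norm_num) _
          calc 2 ^ (0 + μ + 1) * (t * w ^ 3) = 2 * t * (2 ^ μ * w ^ 3) := by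
                rw [zero_add, pow_succ]; ring
            _ ≤ 2 * t * ((2 ^ μ) ^ 3 * w ^ 3) :=
                Nat.mul_le_mul_left _ (Nat.mul_le_mul_right _ e3)
            _ = _ := by rw [← mul_pow]
      _ = (2 * t) ^ (t + 1) * (2 ^ μ * w) ^ (3 * (t + 1)) := by rw [mul_pow, ← pow_mul]
      _ ≤ C ^ g * (2 ^ μ * w) ^ (2 ^ 10 * g * g) := by
          refine Nat.mul_le_mul hbig (Nat.pow_le_pow_right hX1 ?_)
          have : 2 ^ 10 * g * g = 1024 * g ^ 2 := by ring
          omega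
      _ = _ := by rw [pow_mul (2 ^ μ * w) (2 ^ 10 * g) g]
  have h4 := Nat.le_of_mul_le_mul_left h3 (Nat.pow_pos (by omega))
  exact (Nat.pow_le_pow_iff_left (by omega)).1 h4

/-- The number of functions with a DNF formula with at most `s` gates. -/
theorem card_dnf (hn : 1 ≤ n) (s : ℕ) (H : Finset ((Fin n → Bool) → Bool)) (hH : ∀ h ∈ H, IsDnf s h) :
    H.card ≤ 2 ^ (2 * n * s) := by
  classical
  -- a formula with less than `s` terms, as a function on `Fin s` with values in `Option`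
  obtain ⟨F, hF⟩ : ∃ F : (Fin s → Finset (Fin n × Bool)) → (Fin n → Bool) → Bool,
    F = fun t x => decide (∃ i, ∀ p ∈ t i, x p.1 = p.2) := ⟨_, rfl⟩
  have h1 : ∀ h ∈ H, h ≠ (fun _ => false) → h ∈ univ.image F := by
    intro h hh hne
    obtain ⟨r, t, hr, ht⟩ := hH h hh
    have hr0 : 0 < r := by
      rcases Nat.eq_zero_or_pos r with h0 | h0
      · exfalso
        subst h0
        refine hne (funext fun x => ?_)
        cases hx : h x
        · rfl
        · obtain ⟨i, -⟩ := (ht x).1 hx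
          exact i.elim0
      · exact h0
    rw [mem_image]
    refine ⟨fun i => t ⟨i.1 % r, Nat.mod_lt _ hr0⟩, mem_univ _, ?_⟩
    funext x
    rw [hF]
    have h2 : (∃ i : Fin s, ∀ p ∈ t ⟨i.1 % r, Nat.mod_lt _ hr0⟩, x p.1 = p.2) ↔
        h x = true := by
      rw [ht x]
      constructor
      · rintro ⟨i, hi⟩
        exact ⟨_, hi⟩
      · rintro ⟨i, hi⟩
        refine ⟨⟨i.1, by omega⟩, ?_⟩
        have e : (⟨i.1 % r, Nat.mod_lt _ hr0⟩ : Fin r) = i := Fin.ext (Nat.mod_eq_of_lt i.2)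
        rw [e]
        exact hi
    show decide (∃ i : Fin s, ∀ p ∈ t ⟨i.1 % r, Nat.mod_lt _ hr0⟩, x p.1 = p.2) = h x
    cases hx : h x
    · rw [decide_eq_false_iff_not, h2, hx]
      exact Bool.noConfusion
    · rw [decide_eq_true_iff, h2, hx]
  have h2 : H ⊆ univ.image F := by
    intro h hh
    by_cases hf : h = fun _ => false
    · rw [mem_image]
      refine ⟨fun _ => {(⟨0, hn⟩, true), (⟨0, hn⟩, false)}, mem_univ _, ?_⟩
      rw [hf, hF]
      funext x
      show decide _ = false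
      rw [decide_eq_false_iff_not]
      rintro ⟨i, hi⟩
      have e1 := hi (⟨0, hn⟩, true) (by simp)
      have e2 := hi (⟨0, hn⟩, false) (by simp)
      have e1' : x ⟨0, hn⟩ = true := e1
      have e2' : x ⟨0, hn⟩ = false := e2
      rw [e1'] at e2'
      exact Bool.noConfusion e2'
    · exact h1 h hh hf
  refine (card_le_card h2).trans (card_image_le.trans (le_of_eq ?_))
  rw [card_univ, Fintype.card_fun, Fintype.card_finset, Fintype.card_prod, Fintype.card_fin,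
    Fintype.card_fin, Fintype.card_bool, ← pow_mul]
  congr 1
  ring

theorem consts3 {g k : ℕ} (hg : 1 ≤ g) (hk : 80 * g ≤ k) :
    (256 * g ^ 2) ^ (400 * g) ≤ (2 ^ k).choose k := by
  have h1 : g ≤ 2 ^ (g - 1) := by
    have := Nat.lt_two_pow_self (n := g - 1)
    omega
  have h2 : 256 * g ^ 2 ≤ 2 ^ (2 * g + 6) := by
    calc 256 * g ^ 2 ≤ 256 * (2 ^ (g - 1)) ^ 2 := Nat.mul_le_mul_left _ (Nat.pow_le_pow_left h1 2)
      _ = 2 ^ (2 * g + 6) := by
          rw [show (256 : ℕ) = 2 ^ 8 by norm_num, ← pow_mul, ← pow_add]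
          congr 1
          omega
  have h3 : ((256 * g ^ 2) ^ (400 * g)) ^ 2 ≤ (2 ^ k).choose k ^ 2 := by
    calc ((256 * g ^ 2) ^ (400 * g)) ^ 2 ≤ ((2 ^ (2 * g + 6)) ^ (400 * g)) ^ 2 :=
          Nat.pow_le_pow_left (Nat.pow_le_pow_left h2 _) 2
      _ = 2 ^ ((2 * g + 6) * (400 * g) * 2) := by
          rw [← pow_mul, ← pow_mul]
          congr 1
          ring
      _ ≤ 2 ^ (k * k) := by
          refine Nat.pow_le_pow_right (by norm_num) ?_
          calc (2 * g + 6) * (400 * g) * 2 ≤ (2 * g + 6 * g) * (400 * g) * 2 :=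
                Nat.mul_le_mul_right _ (Nat.mul_le_mul_right _ (by omega))
            _ = (80 * g) * (80 * g) := by ring
            _ ≤ k * k := Nat.mul_le_mul hk hk
      _ ≤ _ := pow_le_choose_sq (by omega)
  exact (Nat.pow_le_pow_iff_left (by norm_num)).1 h3

/-- The case of formulas whose size is the number of variables. -/
theorem refute_poly {g k s m : ℕ} (hg : 1 ≤ g) (hk : 80 * g ≤ k)
    (hm : 16 * g ^ 3 * (2 ^ k * s + k ^ 2) ≤ m)
    (μ : ℕ) (R : Type) [Fintype R] [Nonempty R] (K W : R → Type) [∀ ρ, Field (K ρ)]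
    [∀ ρ, Fintype (W ρ)] (T : ∀ ρ, Net (K ρ) (Fin m) (Ex (2 ^ k)) (W ρ)) (c : ∀ ρ, W ρ → K ρ)
    (h1 : ∀ ρ e, (T ρ).reads e ≤ 1)
    (hno : ∀ ρ (S : Fin m → Ex (2 ^ k)), (∀ h, IsDnf s h → ¬ Adv g h S) →
      (T ρ).value (c ρ) S = 0)
    (hp : ∀ f : (Fin (2 ^ k) → Bool) → Bool, IsDnf (2 ^ k) f →
      Nat.card R * 2 ^ (2 ^ k * m) ≤ 2 ^ μ *
        Nat.card {q : R × (Fin m → Fin (2 ^ k) → Bool) //
          (T q.1).value (c q.1) (labelled f q.2) ≠ 0}) :
    ∃ ρ, 2 ^ (k ^ 2) ≤ (2 ^ μ * Fintype.card (W ρ)) ^ (2 ^ 11 * g) := by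
  classical
  obtain ⟨H, hH⟩ : ∃ H : Finset ((Fin (2 ^ k) → Bool) → Bool),
    H = univ.filter (fun h => IsDnf s h) := ⟨_, rfl⟩
  have hHc : H.card ≤ 2 ^ (2 * 2 ^ k * s) := card_dnf Nat.one_le_two_pow s H fun h hh => by
    rw [hH] at hh
    exact (mem_filter.1 hh).2
  have hg1 : 1 ≤ g ^ 3 := Nat.one_le_pow _ _ hg
  have hg2 : 1 ≤ g ^ 2 := Nat.one_le_pow _ _ hg
  have hg23 : g ^ 2 ≤ g ^ 3 := Nat.pow_le_pow_right hg (by norm_num)
  have hk80 : 80 ≤ k := by omega
  have hk1 : 6400 ≤ k ^ 2 := by nlinarith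
  have hkg : g ^ 3 * 6400 ≤ g ^ 3 * k ^ 2 := Nat.mul_le_mul_left _ hk1
  have hmE : 16 * g ^ 3 * (2 ^ k * s + k ^ 2) =
      16 * (g ^ 3 * (2 ^ k * s)) + 16 * (g ^ 3 * k ^ 2) := by ring
  have hcond : (2 * H.card * (2 ^ k).choose k ^ (2 * g)) ^ (4 * g ^ 2) ≤ 2 ^ m := by
    calc (2 * H.card * (2 ^ k).choose k ^ (2 * g)) ^ (4 * g ^ 2) ≤
        (2 ^ 1 * 2 ^ (2 * 2 ^ k * s) * (2 ^ (k * k)) ^ (2 * g)) ^ (4 * g ^ 2) := by
          refine Nat.pow_le_pow_left (Nat.mul_le_mul (Nat.mul_le_mul (by norm_num) hHc)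
            (Nat.pow_le_pow_left (choose_le_sq k) _)) _
      _ = 2 ^ ((1 + 2 * 2 ^ k * s + k * k * (2 * g)) * (4 * g ^ 2)) := by
          rw [← pow_mul 2 (k * k), ← pow_add, ← pow_add, ← pow_mul]
      _ ≤ 2 ^ m := by
          refine Nat.pow_le_pow_right (by norm_num) (le_trans ?_ hm)
          rw [hmE]
          have e1 : (1 + 2 * 2 ^ k * s + k * k * (2 * g)) * (4 * g ^ 2) =
              4 * g ^ 2 + 8 * (g ^ 2 * (2 ^ k * s)) + 8 * (g ^ 3 * k ^ 2) := by ring
          have e2 : g ^ 2 * (2 ^ k * s) ≤ g ^ 3 * (2 ^ k * s) := Nat.mul_le_mul_right _ hg23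
          omega
  obtain ⟨ρ, hρ⟩ := main_refute hg (consts3 hg hk) H hcond (by omega) μ R K W T c h1
    (fun ρ S hS => hno ρ S fun h hh => hS h (by
      rw [hH, mem_filter]
      exact ⟨mem_univ _, hh⟩)) (by
    have e1 : Nat.card {q : R × (Fin m → Fin (2 ^ k) → Bool) ×
        {A : Finset (Fin (2 ^ k)) // A.card = k} //
        (T q.1).value (c q.1) (labelled (par q.2.2.1) q.2.1) ≠ 0} =
        ∑ A : {A : Finset (Fin (2 ^ k)) // A.card = k},
          Nat.card {q : R × (Fin m → Fin (2 ^ k) → Bool) //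
            (T q.1).value (c q.1) (labelled (par A.1) q.2) ≠ 0} := by
      rw [Nat.card_eq_fintype_card, Fintype.card_subtype, card_filter, Fintype.sum_prod_type]
      simp only [Fintype.sum_prod_type]
      have e2 : ∀ A : {A : Finset (Fin (2 ^ k)) // A.card = k},
          Nat.card {q : R × (Fin m → Fin (2 ^ k) → Bool) //
            (T q.1).value (c q.1) (labelled (par A.1) q.2) ≠ 0} =
          ∑ ρ : R, ∑ X : Fin m → Fin (2 ^ k) → Bool,
            if (T ρ).value (c ρ) (labelled (par A.1) X) ≠ 0 then 1 else 0 := by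
        intro A
        rw [Nat.card_eq_fintype_card, Fintype.card_subtype, card_filter, Fintype.sum_prod_type]
      simp only [e2]
      rw [sum_comm (s := (univ : Finset {A : Finset (Fin (2 ^ k)) // A.card = k}))]
      refine sum_congr rfl fun ρ _ => ?_
      rw [sum_comm]
    rw [e1, mul_sum]
    have e3 : ∀ A : {A : Finset (Fin (2 ^ k)) // A.card = k},
        Nat.card R * 2 ^ (2 ^ k * m) ≤ 2 ^ μ *
          Nat.card {q : R × (Fin m → Fin (2 ^ k) → Bool) //
            (T q.1).value (c q.1) (labelled (par A.1) q.2) ≠ 0} := by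
      intro A
      refine hp _ ?_
      obtain ⟨r, T, h3, h4⟩ := par_dnf (by omega) A.1 A.2
      refine ⟨r, T, h3.trans ?_, h4⟩
      obtain ⟨j, hj⟩ : ∃ j, k = j + 1 := ⟨k - 1, by omega⟩
      rw [hj, Nat.add_sub_cancel, pow_succ]
      have : 1 ≤ 2 ^ j := Nat.one_le_two_pow
      omega
    calc Nat.card R * (2 ^ (2 ^ k * m) * (2 ^ k).choose k) =
        ∑ _A : {A : Finset (Fin (2 ^ k)) // A.card = k}, Nat.card R * 2 ^ (2 ^ k * m) := by
          rw [sum_const, card_univ, Fintype.card_finset_len, Fintype.card_fin, smul_eq_mul]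
          ring
      _ ≤ _ := sum_le_sum fun A _ => e3 A)
  refine ⟨ρ, ?_⟩
  calc 2 ^ (k ^ 2) = 2 ^ (k * k) := by rw [sq]
    _ ≤ (2 ^ k).choose k ^ 2 := pow_le_choose_sq (by omega)
    _ ≤ ((2 ^ μ * Fintype.card (W ρ)) ^ (2 ^ 10 * g)) ^ 2 := Nat.pow_le_pow_left hρ 2
    _ = _ := by
        rw [← pow_mul]
        congr 1
        ring

/-- A linear network which recognises the samples of parities of `k` bits. -/
theorem upper_refute (n k : ℕ) {m : ℕ} (hm : 1 ≤ m) :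
    ∃ (T : Net ℚ (Fin m) (Ex n) {A : Finset (Fin n) // A.card = k})
      (c : {A : Finset (Fin n) // A.card = k} → ℚ),
      T.Linear ∧ (∀ e, T.reads e = 1) ∧ T.size = 2 * m - 1 ∧
        ∀ S : Fin m → Ex n, T.value c S ≠ 0 ↔
          ∃ A : Finset (Fin n), A.card = k ∧ ∀ i, par A (S i).1 = (S i).2 := by
  classical
  have : Nonempty (Fin m) := ⟨⟨0, hm⟩⟩
  obtain ⟨T, h1, h2, h3, h4⟩ := exists_product (K := ℚ)
    (fun (_ : Fin m) (e : Ex n) (A : {A : Finset (Fin n) // A.card = k}) =>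
      if par A.1 e.1 = e.2 then (1 : ℚ) else 0)
  refine ⟨T, fun _ => 1, h1, h2, ?_, fun S => ?_⟩
  · rw [h3, Fintype.card_fin]
  · have h5 : ∀ A : {A : Finset (Fin n) // A.card = k}, 0 ≤ T.eval S A ∧
        (T.eval S A ≠ 0 ↔ ∀ i, par A.1 (S i).1 = (S i).2) := by
      intro A
      rw [h4]
      refine ⟨prod_nonneg fun e _ => by split_ifs <;> norm_num, ?_⟩
      rw [prod_ne_zero_iff]
      constructor
      · intro h e
        by_contra hcon
        exact h e (mem_univ _) (if_neg hcon)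
      · intro h e _
        rw [if_pos (h e)]
        exact one_ne_zero
    unfold Net.value
    rw [Ne, sum_eq_zero_iff_of_nonneg (fun k _ => by
      rw [one_mul]
      exact (h5 k).1)]
    push Not
    constructor
    · rintro ⟨A, -, hA⟩
      rw [one_mul] at hA
      exact ⟨A.1, A.2, (h5 A).2.1 hA⟩
    · rintro ⟨A, hA, h⟩
      refine ⟨⟨A, hA⟩, mem_univ _, ?_⟩
      rw [one_mul]
      exact (h5 _).2.2 h

end Pool.Agent.U20.DL
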